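import Mathlib

/-!
# Derivations preserving a subring preserve the valuation rings above it

A valuation-theoretic form of a theorem of Seidenberg, in characteristic zero.
-/

namespace Pool.Agent.W277.UD

open Polynomial

variable {k L : Type*} [Field k] [Field L] [Algebra k L]

/-- `x` is zero or has order at least `m`. -/
def GG (o : L → ℤ) (m : ℤ) (x : L) : Prop := x ≠ 0 → m ≤ o x

/-- A normalised discrete valuation, trivial on `k`, with residue field algebraic over `k`. -/
structure Val (k : Type*) {L : Type*} [Field k] [Field L] [Algebra k L] (o : L → ℤ) : Prop where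
  mul : ∀ x y, x ≠ 0 → y ≠ 0 → o (x * y) = o x + o y
  add : ∀ x y (m : ℤ), x ≠ 0 → y ≠ 0 → x + y ≠ 0 → m ≤ o x → m ≤ o y → m ≤ o (x + y)
  alg : ∀ c : k, c ≠ 0 → o (algebraMap k L c) = 0
  unif : ∃ π, π ≠ 0 ∧ o π = 1
  res : ∀ x, x ≠ 0 → 0 ≤ o x → ∃ s, GG o 1 (x - s) ∧ ∃ p : k[X], GG o 1 (aeval s p) ∧
    aeval s (derivative p) ≠ 0 ∧ o (aeval s (derivative p)) = 0

variable {o : L → ℤ} {x y : L} {m n : ℤ}

lemma GG_mono (h : GG o m x) (hn : n ≤ m) : GG o n x := fun hx => hn.trans (h hx)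

lemma GG_zero : GG o m 0 := fun h => absurd rfl h

namespace Val

lemma GG_mul (hv : Val k o) (hx : GG o m x) (hy : GG o n y) : GG o (m + n) (x * y) := by
  intro h
  have hx0 := left_ne_zero_of_mul h
  have hy0 := right_ne_zero_of_mul h
  rw [hv.mul x y hx0 hy0]
  exact add_le_add (hx hx0) (hy hy0)

lemma GG_add (hv : Val k o) (hx : GG o m x) (hy : GG o m y) : GG o m (x + y) := by
  intro h
  by_cases hx0 : x = 0
  · subst hx0
    rw [zero_add] at h ⊢
    exact hy h
  by_cases hy0 : y = 0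
  · subst hy0
    rw [add_zero] at h ⊢
    exact hx h
  exact hv.add x y m hx0 hy0 h (hx hx0) (hy hy0)

lemma one (hv : Val k o) : o 1 = 0 := by
  have := hv.alg 1 one_ne_zero
  rwa [map_one] at this

lemma neg (hv : Val k o) (hx : x ≠ 0) : o (-x) = o x := by
  have h1 : (-x) = algebraMap k L (-1) * x := by simp
  rw [h1, hv.mul _ _ (by simp) hx, hv.alg _ (by simp), zero_add]

lemma GG_neg (hv : Val k o) (hx : GG o m x) : GG o m (-x) := by
  intro h
  have hx0 : x ≠ 0 := by simpa using h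
  rw [hv.neg hx0]
  exact hx hx0

lemma GG_sub (hv : Val k o) (hx : GG o m x) (hy : GG o m y) : GG o m (x - y) := by
  rw [sub_eq_add_neg]
  exact hv.GG_add hx (hv.GG_neg hy)

lemma pow (hv : Val k o) (hx : x ≠ 0) (n : ℕ) : o (x ^ n) = n * o x := by
  induction n with
  | zero => rw [pow_zero, hv.one]; simp
  | succ n ih =>
    rw [pow_succ, hv.mul _ _ (pow_ne_zero _ hx) hx, ih]
    push_cast
    ring

lemma inv (hv : Val k o) (hx : x ≠ 0) : o x⁻¹ = - o x := by
  have h := hv.mul x x⁻¹ hx (inv_ne_zero hx)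
  rw [mul_inv_cancel₀ hx, hv.one] at h
  linarith

lemma div (hv : Val k o) (hx : x ≠ 0) (hy : y ≠ 0) : o (x / y) = o x - o y := by
  rw [div_eq_mul_inv, hv.mul _ _ hx (inv_ne_zero hy), hv.inv hy]
  ring

lemma zpow (hv : Val k o) (hx : x ≠ 0) (n : ℤ) : o (x ^ n) = n * o x := by
  cases n with
  | ofNat n => simpa using hv.pow hx n
  | negSucc n =>
    rw [zpow_negSucc, hv.inv (pow_ne_zero _ hx), hv.pow hx]
    push_cast [Int.negSucc_eq]
    ring

/-- Valuation form of Seidenberg's theorem. -/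
theorem seidenberg [CharZero k] (hv : Val k o) (D : Derivation k L L) (m0 : ℕ)
    (hm0 : ∀ x, x ≠ 0 → 0 ≤ o x → GG o (-m0) (D x)) (R : Subalgebra k L)
    (hR : ∀ x ∈ R, GG o 0 x) (hRD : ∀ x ∈ R, D x ∈ R)
    (hfrac : ∀ x : L, ∃ a ∈ R, ∃ b ∈ R, b ≠ 0 ∧ x = a / b) :
    ∀ x, GG o 0 x → GG o 0 (D x) := by
  classical
  have hex : ∃ m : ℕ, ∀ x, x ≠ 0 → 0 ≤ o x → GG o (-m) (D x) := ⟨m0, hm0⟩
  obtain ⟨m, hm, hmin⟩ : ∃ m : ℕ, (∀ x, x ≠ 0 → 0 ≤ o x → GG o (-m) (D x)) ∧
      ∀ m' < m, ¬ ∀ x, x ≠ 0 → 0 ≤ o x → GG o (-m') (D x) :=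
    ⟨Nat.find hex, Nat.find_spec hex, fun m' h => Nat.find_min hex h⟩
  rcases Nat.eq_zero_or_pos m with h0 | hpos
  · subst h0
    intro x hx
    by_cases hx0 : x = 0
    · subst hx0
      rw [map_zero]
      exact GG_zero
    · simpa using hm x hx0 (hx hx0)
  exfalso
  obtain ⟨π, hπ0, hπ⟩ := hv.unif
  -- the derivative of the uniformizer
  have hDπ : D π ≠ 0 ∧ o (D π) = -m := by
    by_contra hcon
    have h1 : GG o (-m + 1) (D π) := by
      intro h
      have h2 := hm π hπ0 (by rw [hπ]; norm_num) h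
      have h3 : o (D π) ≠ -m := fun h3 => hcon ⟨h, h3⟩
      omega
    have h2 : ∀ y, GG o 1 y → GG o (-m + 1) (D y) := by
      intro y hy
      by_cases hy0 : y = 0
      · subst hy0
        rw [map_zero]
        exact GG_zero
      · have h3 : y = π * (y / π) := by field_simp
        have h4 : o (y / π) = o y - 1 := by rw [hv.div hy0 hπ0, hπ]
        have h5 := hy hy0
        have h6 : y / π ≠ 0 := div_ne_zero hy0 hπ0
        rw [h3, Derivation.leibniz]
        simp only [smul_eq_mul]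
        apply hv.GG_add
        · refine GG_mono (hv.GG_mul (m := 1) (n := -m) (fun _ => hπ.ge) ?_) (by linarith)
          exact hm _ h6 (by rw [h4]; linarith)
        · refine GG_mono (hv.GG_mul (m := 0) (n := -m + 1) (fun _ => ?_) h1) (by linarith)
          rw [h4]
          linarith
    apply hmin (m - 1) (by omega)
    intro x hx hxo
    obtain ⟨s, hs, p, hp1, hp2, hp3⟩ := hv.res x hx hxo
    have h3 : D x = D (x - s) + D s := by
      rw [← map_add]
      congr 1
      ring
    have h4 : GG o (-m + 1) (D s) := by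
      have h5 := h2 _ hp1
      rw [Derivation.map_aeval] at h5
      intro h
      have h6 := h5 (smul_ne_zero hp2 h)
      rw [smul_eq_mul, hv.mul _ _ hp2 h, hp3] at h6
      linarith
    rw [h3]
    refine GG_mono (hv.GG_add (h2 _ hs) h4) ?_
    push_cast [Nat.cast_sub (show 1 ≤ m by omega)]
    linarith
  -- exact order of derivatives
  have hexact : ∀ (γ : ℕ) (x : L), 1 ≤ γ → x ≠ 0 → o x = γ → D x ≠ 0 ∧ o (D x) = γ - 1 - m := by
    intro γ x hγ hx hxo
    set ε := x / π ^ γ with hε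
    have hπγ : π ^ γ ≠ 0 := pow_ne_zero _ hπ0
    have hε0 : ε ≠ 0 := div_ne_zero hx hπγ
    have hεo : o ε = 0 := by
      rw [hε, hv.div hx hπγ, hv.pow hπ0, hπ, hxo]
      ring
    have hxe : x = π ^ γ * ε := by
      rw [hε]
      field_simp
    have hγ0 : (algebraMap k L (γ : k)) ≠ 0 := by
      rw [Ne, map_eq_zero]
      exact_mod_cast (by omega : γ ≠ 0)
    set A1 := ε * (algebraMap k L (γ : k) * (π ^ (γ - 1) * D π)) with hA1
    set A2 := π ^ γ * D ε with hA2
    have hDx : D x = A2 + A1 := by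
      rw [hxe, Derivation.leibniz, Derivation.leibniz_pow, hA1, hA2]
      simp only [smul_eq_mul, nsmul_eq_mul, map_natCast]
    have hA10 : A1 ≠ 0 := mul_ne_zero hε0 (mul_ne_zero hγ0 (mul_ne_zero (pow_ne_zero _ hπ0) hDπ.1))
    have hA1o : o A1 = γ - 1 - m := by
      rw [hA1, hv.mul _ _ hε0 (mul_ne_zero hγ0 (mul_ne_zero (pow_ne_zero _ hπ0) hDπ.1)),
        hv.mul _ _ hγ0 (mul_ne_zero (pow_ne_zero _ hπ0) hDπ.1),
        hv.mul _ _ (pow_ne_zero _ hπ0) hDπ.1, hv.pow hπ0, hπ, hDπ.2, hεo,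
        hv.alg _ (by exact_mod_cast (by omega : γ ≠ 0))]
      push_cast [Nat.cast_sub hγ]
      ring
    have hA2o : GG o (γ - m) A2 := by
      rw [hA2]
      have h1 := hv.GG_mul (m := γ) (n := -m) (x := π ^ γ) (y := D ε) (fun _ => by
        rw [hv.pow hπ0, hπ, mul_one]) (hm ε hε0 hεo.ge)
      exact h1
    have hne : D x ≠ 0 := by
      intro h
      have h1 : A1 = - A2 := by
        rw [hDx] at h
        exact eq_neg_of_add_eq_zero_right h
      have h2 := (hv.GG_neg hA2o) (by rw [← h1]; exact hA10)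
      rw [← h1, hA1o] at h2
      linarith
    refine ⟨hne, le_antisymm ?_ ?_⟩
    · by_contra hcon
      push Not at hcon
      have h1 : GG o (γ - m) (D x) := fun _ => by linarith
      have h2 : A1 = D x - A2 := by
        rw [hDx]
        ring
      have h3 := (hv.GG_sub h1 hA2o) (by rw [← h2]; exact hA10)
      rw [← h2, hA1o] at h3
      linarith
    · have h1 : GG o (γ - 1 - m) (D x) := by
        rw [hDx]
        exact hv.GG_add (GG_mono hA2o (by linarith)) (fun _ => hA1o.ge)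
      exact h1 hne
  -- divisibility
  have hdiv : ∀ (N : ℕ) (a : L), a ∈ R → a ≠ 0 → o a = N → (m + 1) ∣ N := by
    intro N
    induction N using Nat.strong_induction_on with
    | _ N ih =>
      intro a haR ha0 haN
      rcases Nat.eq_zero_or_pos N with hN | hN
      · subst hN
        exact dvd_zero _
      · obtain ⟨h1, h2⟩ := hexact N a hN ha0 haN
        have h3 := hR _ (hRD a haR) h1
        rw [h2] at h3
        have h4 : ((N - 1 - m : ℕ) : ℤ) = N - 1 - m := by omega
        have h5 := ih (N - 1 - m) (by omega) (D a) (hRD a haR) h1 (by rw [h2, h4])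
        have h6 : N = (N - 1 - m) + (m + 1) := by omega
        rw [h6]
        exact dvd_add h5 (dvd_refl _)
  obtain ⟨a, haR, b, hbR, hb0, hab⟩ := hfrac π
  have ha0 : a ≠ 0 := by
    rintro rfl
    rw [zero_div] at hab
    exact hπ0 hab
  have h1 : o π = o a - o b := by rw [hab, hv.div ha0 hb0]
  obtain ⟨Na, hNa⟩ := Int.eq_ofNat_of_zero_le (hR a haR ha0)
  obtain ⟨Nb, hNb⟩ := Int.eq_ofNat_of_zero_le (hR b hbR hb0)
  obtain ⟨qa, hqa⟩ := hdiv Na a haR ha0 hNa
  obtain ⟨qb, hqb⟩ := hdiv Nb b hbR hb0 hNb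
  rw [hπ, hNa, hNb, hqa, hqb] at h1
  push_cast at h1
  have h2 : ((m : ℤ) + 1) ∣ 1 := ⟨(qa : ℤ) - qb, by linear_combination h1⟩
  have h3 := Int.le_of_dvd one_pos h2
  omega

/-- Consequence for elements of any order. -/
lemma deriv_le (hv : Val k o) (D : Derivation k L L) (h : ∀ x, GG o 0 x → GG o 0 (D x))
    (x : L) (m : ℤ) (hx : GG o m x) : GG o (m - 1) (D x) := by
  obtain ⟨π, hπ0, hπ⟩ := hv.unif
  by_cases hx0 : x = 0
  · subst hx0
    rw [map_zero]
    exact GG_zero
  have hpos : ∀ (j : ℕ), GG o (j - 1 : ℤ) (D (π ^ j)) := by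
    intro j
    rw [Derivation.leibniz_pow]
    simp only [smul_eq_mul, nsmul_eq_mul]
    rcases Nat.eq_zero_or_pos j with h0 | h0
    · subst h0
      simp only [Nat.cast_zero, zero_mul]
      exact GG_zero
    · have h1 : GG o 0 ((j : L)) := by
        intro hj
        have h2 : (j : L) = algebraMap k L (j : k) := by simp
        rw [h2, hv.alg]
        intro h3
        rw [h2, h3, map_zero] at hj
        exact hj rfl
      have h2 : GG o ((j - 1 : ℕ) : ℤ) (π ^ (j - 1)) := by
        intro _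
        rw [hv.pow hπ0, hπ, mul_one]
      have h3 := hv.GG_mul h1 (hv.GG_mul h2 (h π (fun _ => by rw [hπ]; norm_num)))
      refine GG_mono h3 ?_
      push_cast [Nat.cast_sub h0]
      linarith
  -- write `x = ε π ^ m` with `ε` of nonnegative order
  rcases le_total 0 m with hm | hm
  · obtain ⟨j, rfl⟩ := Int.eq_ofNat_of_zero_le hm
    have h1 : x = π ^ j * (x / π ^ j) := by field_simp
    have h2 : GG o 0 (x / π ^ j) := by
      intro _
      rw [hv.div hx0 (pow_ne_zero _ hπ0), hv.pow hπ0, hπ]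
      have := hx hx0
      linarith
    rw [h1, Derivation.leibniz]
    simp only [smul_eq_mul]
    apply hv.GG_add
    · refine GG_mono (hv.GG_mul (m := j) (fun _ => ?_) (h _ h2)) (by linarith)
      rw [hv.pow hπ0, hπ, mul_one]
    · refine GG_mono (hv.GG_mul h2 (hpos j)) (by linarith)
  · obtain ⟨j, hj⟩ := Int.eq_ofNat_of_zero_le (neg_nonneg.mpr hm)
    have hmj : m = -(j : ℤ) := by linarith
    subst hmj
    have h2 : GG o 0 (π ^ j * x) := by
      intro _
      rw [hv.mul _ _ (pow_ne_zero _ hπ0) hx0, hv.pow hπ0, hπ]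
      have := hx hx0
      linarith
    have h3 := h _ h2
    rw [Derivation.leibniz] at h3
    simp only [smul_eq_mul] at h3
    have h4 : GG o (-1) (x * D (π ^ j)) := by
      refine GG_mono (hv.GG_mul hx (hpos j)) (by linarith)
    have h5 : GG o (-1) (π ^ j * D x) := by
      have h6 := hv.GG_sub (GG_mono h3 (show (-1 : ℤ) ≤ 0 by norm_num)) h4
      rwa [add_sub_cancel_right] at h6
    intro hD
    have h6 := h5 (mul_ne_zero (pow_ne_zero _ hπ0) hD)
    rw [hv.mul _ _ (pow_ne_zero _ hπ0) hD, hv.pow hπ0, hπ] at h6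
    linarith

end Val

end Pool.Agent.W277.UD
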