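import Mathlib
import Pool.Agent.W277.UD.Seid
import Pool.Agent.W277.UB.Chart3

/-!
# Chart data with norms and residue fields
-/

namespace Pool.Agent.W277.UD

set_option linter.style.haveILetI false

open IsDedekindDomain HeightOneSpectrum WithZero Polynomial Pool.Agent.W277.UB

universe w

section Norm

variable {R F S K : Type*} [CommRing R] [IsDomain R] [IsPrincipalIdealRing R] [Field F]
  [Algebra R F] [IsFractionRing R F] [CommRing S] [IsDedekindDomain S] [Field K] [Algebra S K]
  [IsFractionRing S K] [Algebra R S] [Module.Finite R S] [Module.IsTorsionFree R S] [Algebra F K]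
  [Algebra R K] [IsScalarTower R F K] [IsScalarTower R S K] [FiniteDimensional F K]

open Submodule.IsPrincipal in
/-- A generator of the norm of a prime. -/
noncomputable def genP (R : Type*) {S : Type*} [CommRing R] [IsDomain R]
    [IsPrincipalIdealRing R] [CommRing S] [IsDedekindDomain S]
    [Algebra R S] [Module.Finite R S] [Module.IsTorsionFree R S] (P : HeightOneSpectrum S) : R :=
  generator (Ideal.relNorm R P.asIdeal)

lemma genP_ne_zero (P : HeightOneSpectrum S) : genP R P ≠ 0 := by
  unfold genP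
  rw [Ne, ← Submodule.IsPrincipal.eq_bot_iff_generator_eq_zero, Ideal.relNorm_eq_bot_iff]
  exact P.ne_bot

lemma genP_not_unit (P : HeightOneSpectrum S) : ¬ IsUnit (genP R P) := by
  intro hu
  unfold genP at hu
  have h1 : Ideal.relNorm R P.asIdeal = ⊤ := by
    rw [← Ideal.span_singleton_generator (Ideal.relNorm R P.asIdeal)]
    exact Ideal.span_singleton_eq_top.mpr hu
  have h2 := Ideal.relNorm_le_comap R P.asIdeal
  rw [h1, top_le_iff, Ideal.comap_eq_top_iff] at h2
  exact P.isPrime.ne_top h2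

/-- Factorisation of the norm of an integral element. -/
lemma norm_fact_alg (s : S) (hs : s ≠ 0) (T : Finset (HeightOneSpectrum S))
    (hT : ∀ P, P ∉ T → ordP P (algebraMap S K s) = 0) :
    ∃ ε : R, IsUnit ε ∧ Algebra.norm F (algebraMap S K s) = algebraMap R F ε *
      ∏ P ∈ T, (algebraMap R F (genP R P)) ^ (ordP P (algebraMap S K s)) := by
  classical
  have hspan : (Ideal.span {s} : Ideal S) ≠ 0 := by
    rw [Ideal.zero_eq_bot]
    simpa using hs
  set n : HeightOneSpectrum S → ℕ := fun P =>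
    (Associates.mk P.asIdeal).count (Associates.mk (Ideal.span {s})).factors with hn
  have h3 : (Ideal.span {s} : Ideal S) = ∏ P ∈ T, P.asIdeal ^ (n P) := by
    conv_lhs => rw [← Ideal.finprod_heightOneSpectrum_factorization hspan]
    apply finprod_eq_prod_of_mulSupport_subset
    intro P hP
    rw [Function.mem_mulSupport] at hP
    by_contra hPT
    apply hP
    have h4 := hT P hPT
    rw [ordP_eq_count P hs] at h4
    unfold maxPowDividing
    have h5 : (Associates.mk P.asIdeal).count (Associates.mk (Ideal.span {s})).factors = 0 := by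
      exact_mod_cast h4
    rw [h5, pow_zero]
  have h4 : Ideal.span {Algebra.intNorm R S s} = Ideal.span {∏ P ∈ T, (genP R P) ^ (n P)} := by
    rw [← Ideal.relNorm_singleton, h3, map_prod, ← Ideal.prod_span_singleton]
    refine Finset.prod_congr rfl fun P _ => ?_
    rw [map_pow, ← Ideal.span_singleton_pow]
    congr 1
    exact (Ideal.span_singleton_generator _).symm
  rw [Ideal.span_singleton_eq_span_singleton] at h4
  obtain ⟨u, hu⟩ := h4.symm
  refine ⟨u, u.isUnit, ?_⟩
  rw [← Algebra.algebraMap_intNorm (A := R) (K := F) (L := K) (B := S) s, ← hu, map_mul, map_prod,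
    mul_comm]
  congr 1
  refine Finset.prod_congr rfl fun P _ => ?_
  rw [ordP_eq_count P hs, zpow_natCast, map_pow]

/-- Factorisation of the norm. -/
lemma norm_fact (x : K) (hx : x ≠ 0) (T : Finset (HeightOneSpectrum S))
    (hT : ∀ P, P ∉ T → ordP P x = 0) :
    ∃ ε : R, IsUnit ε ∧ Algebra.norm F x = algebraMap R F ε *
      ∏ P ∈ T, (algebraMap R F (genP R P)) ^ (ordP P x) := by
  classical
  obtain ⟨a, b, ha, hb, rfl⟩ := exists_frac (S := S) x hx
  have ha' : algebraMap S K a ≠ 0 := by simpa using ha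
  have hb' : algebraMap S K b ≠ 0 := by simpa using hb
  set T' := T ∪ ((finite_ordP_alg (K := K) a ha).toFinset ∪
    (finite_ordP_alg (K := K) b hb).toFinset) with hT'
  obtain ⟨ε1, hε1, h1⟩ := norm_fact_alg (R := R) (F := F) (K := K) a ha T' (by
    intro P hP
    by_contra h
    exact hP (by simp [hT', h]))
  obtain ⟨ε2, hε2, h2⟩ := norm_fact_alg (R := R) (F := F) (K := K) b hb T' (by
    intro P hP
    by_contra h
    exact hP (by simp [hT', h]))
  obtain ⟨ε2', hε2'⟩ := hε2.exists_right_inv
  have hg : ∀ P : HeightOneSpectrum S, algebraMap R F (genP R P) ≠ 0 := by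
    intro P
    rw [Ne, map_eq_zero_iff _ (FaithfulSMul.algebraMap_injective R F)]
    exact genP_ne_zero P
  refine ⟨ε1 * ε2', hε1.mul (IsUnit.of_mul_eq_one _ (by rw [mul_comm]; exact hε2')), ?_⟩
  have h5 : ∏ P ∈ T, (algebraMap R F (genP R P)) ^
      (ordP P (algebraMap S K a / algebraMap S K b)) =
      ∏ P ∈ T', (algebraMap R F (genP R P)) ^
        (ordP P (algebraMap S K a / algebraMap S K b)) := by
    apply Finset.prod_subset Finset.subset_union_left
    intro P _ hP
    rw [hT P hP, zpow_zero]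
  have h6 : algebraMap R F ε2 ≠ 0 := by
    rw [Ne, map_eq_zero_iff _ (FaithfulSMul.algebraMap_injective R F)]
    exact hε2.ne_zero
  have h7 : algebraMap R F ε2' = (algebraMap R F ε2)⁻¹ := by
    apply eq_inv_of_mul_eq_one_left
    rw [← map_mul, mul_comm, hε2', map_one]
  have h8 : ∏ P ∈ T', (algebraMap R F (genP R P)) ^
        (ordP P (algebraMap S K a / algebraMap S K b)) =
      (∏ P ∈ T', (algebraMap R F (genP R P)) ^ (ordP P (algebraMap S K a))) /
      (∏ P ∈ T', (algebraMap R F (genP R P)) ^ (ordP P (algebraMap S K b))) := by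
    rw [← Finset.prod_div_distrib]
    refine Finset.prod_congr rfl fun P _ => ?_
    rw [ordP_div P ha' hb', zpow_sub₀ (hg P)]
  have hnb : Algebra.norm F (algebraMap S K b) ≠ 0 := Algebra.norm_ne_zero_iff.mpr hb'
  have h9 : Algebra.norm F (algebraMap S K a / algebraMap S K b) =
      Algebra.norm F (algebraMap S K a) / Algebra.norm F (algebraMap S K b) := by
    rw [eq_div_iff hnb, ← map_mul, div_mul_cancel₀ _ hb']
  rw [h2] at hnb
  rw [h5, h8, h9, h1, h2, map_mul, h7]
  have h10 := right_ne_zero_of_mul hnb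
  field_simp

end Norm

section Res

variable {k R S K : Type*} [Field k] [CommRing R] [IsDomain R] [CommRing S] [IsDedekindDomain S]
  [Field K] [Algebra S K] [IsFractionRing S K] [Algebra R S] [Algebra.IsIntegral R S]

lemma exists_int_approx (P : HeightOneSpectrum S) (x : K) (hx : x ≠ 0) (h : 0 ≤ ordP P x) :
    ∃ s : S, GG (ordP P) 1 (x - algebraMap S K s) := by
  obtain ⟨a, b, ha, hb, hb0, rfl⟩ := exists_frac_of_nonneg P x hx h
  have hbP : b ∉ P.asIdeal := by
    intro hbP
    have h1 : ((1 : ℕ) : ℤ) ≤ ordP P (algebraMap S K b) := by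
      rw [le_ordP_alg_iff P hb, pow_one]
      exact hbP
    rw [hb0] at h1
    norm_num at h1
  have := P.isMaximal
  obtain ⟨y, i, hi, hyi⟩ := Ideal.IsMaximal.exists_inv this hbP
  refine ⟨a * y, ?_⟩
  have hb' : algebraMap S K b ≠ 0 := by simpa using hb
  have h1 : algebraMap S K a / algebraMap S K b - algebraMap S K (a * y) =
      algebraMap S K (a * i) / algebraMap S K b := by
    have h2 : i = 1 - y * b := by rw [← hyi]; ring
    rw [h2]
    simp only [map_mul, map_sub, map_one]
    field_simp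
  rw [h1]
  intro hne
  have h3 : algebraMap S K (a * i) ≠ 0 := by
    intro h0
    rw [h0, zero_div] at hne
    exact hne rfl
  have hai : a * i ≠ 0 := by
    rintro h0
    rw [h0, map_zero] at h3
    exact h3 rfl
  rw [ordP_div P h3 hb', hb0, sub_zero]
  have h4 : ((1 : ℕ) : ℤ) ≤ ordP P (algebraMap S K (a * i)) := by
    rw [le_ordP_alg_iff P hai, pow_one]
    exact Ideal.mul_mem_left _ _ hi
  exact_mod_cast h4

/-- The residue field is algebraic. -/
lemma exists_alg_mod (i : k →+* R)
    (hres : ∀ 𝔭 : Ideal R, 𝔭.IsPrime → 𝔭 ≠ ⊥ → ∀ r : R, ∃ q : k[X], q ≠ 0 ∧ q.eval₂ i r ∈ 𝔭)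
    (P : HeightOneSpectrum S) (s : S) :
    ∃ p : k[X], p ≠ 0 ∧ p.eval₂ ((algebraMap R S).comp i) s ∈ P.asIdeal := by
  letI : Algebra k (S ⧸ P.asIdeal) := ((algebraMap R (S ⧸ P.asIdeal)).comp i).toAlgebra
  set 𝔭 : Ideal R := P.asIdeal.comap (algebraMap R S) with h𝔭
  have h𝔭p : 𝔭.IsPrime := by
    have := P.isPrime
    exact Ideal.comap_isPrime _ _
  have h𝔭0 : 𝔭 ≠ ⊥ := by
    obtain ⟨x, hx, hx0⟩ := Submodule.exists_mem_ne_zero_of_ne_bot P.ne_bot
    exact Ideal.comap_ne_bot_of_integral_mem hx0 hx (Algebra.IsIntegral.isIntegral x)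
  have hmk : ∀ r : R, algebraMap R (S ⧸ P.asIdeal) r = Ideal.Quotient.mk P.asIdeal
    (algebraMap R S r) := fun _ => rfl
  have hk : algebraMap k (S ⧸ P.asIdeal) = (algebraMap R (S ⧸ P.asIdeal)).comp i := rfl
  have hRA : ∀ r : R, algebraMap R (S ⧸ P.asIdeal) r ∈ integralClosure k (S ⧸ P.asIdeal) := by
    intro r
    obtain ⟨q, hq0, hq⟩ := hres 𝔭 h𝔭p h𝔭0 r
    rw [h𝔭, Ideal.mem_comap] at hq
    have h1 : aeval (algebraMap R (S ⧸ P.asIdeal) r) q = 0 := by
      rw [aeval_def, hk, ← Polynomial.hom_eval₂, hmk, Ideal.Quotient.eq_zero_iff_mem]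
      exact hq
    have h2 : IsAlgebraic k (algebraMap R (S ⧸ P.asIdeal) r) := ⟨q, hq0, h1⟩
    exact h2.isIntegral
  letI : Algebra R (integralClosure k (S ⧸ P.asIdeal)) :=
    (RingHom.codRestrict (algebraMap R (S ⧸ P.asIdeal)) (integralClosure k (S ⧸ P.asIdeal))
      hRA).toAlgebra
  haveI : IsScalarTower R (integralClosure k (S ⧸ P.asIdeal)) (S ⧸ P.asIdeal) :=
    IsScalarTower.of_algebraMap_eq fun r => rfl
  have h1 : IsIntegral R (Ideal.Quotient.mk P.asIdeal s) :=
    (Algebra.IsIntegral.isIntegral (R := R) s).map (Ideal.Quotient.mkₐ R P.asIdeal)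
  have h2 : IsIntegral (integralClosure k (S ⧸ P.asIdeal)) (Ideal.Quotient.mk P.asIdeal s) :=
    h1.tower_top
  have h3 : IsIntegral k (Ideal.Quotient.mk P.asIdeal s) := isIntegral_trans _ h2
  refine ⟨minpoly k (Ideal.Quotient.mk P.asIdeal s), minpoly.ne_zero h3, ?_⟩
  rw [← Ideal.Quotient.eq_zero_iff_mem, Polynomial.hom_eval₂]
  exact minpoly.aeval k (Ideal.Quotient.mk P.asIdeal s)

lemma exists_sep_mod [CharZero k] [Algebra k K] (i : k →+* R)
    (hi : ∀ c, algebraMap S K (algebraMap R S (i c)) = algebraMap k K c)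
    (hres : ∀ 𝔭 : Ideal R, 𝔭.IsPrime → 𝔭 ≠ ⊥ → ∀ r : R, ∃ q : k[X], q ≠ 0 ∧ q.eval₂ i r ∈ 𝔭)
    (P : HeightOneSpectrum S) (s : S) :
    ∃ p : k[X], GG (ordP P) 1 (aeval (algebraMap S K s) p) ∧
      aeval (algebraMap S K s) (derivative p) ≠ 0 ∧
      ordP P (aeval (algebraMap S K s) (derivative p)) = 0 := by
  classical
  set j := (algebraMap R S).comp i with hj
  have hex : ∃ N : ℕ, ∃ p : k[X], p ≠ 0 ∧ p.natDegree = N ∧ p.eval₂ j s ∈ P.asIdeal := by
    obtain ⟨p, hp, hpP⟩ := exists_alg_mod i hres P s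
    exact ⟨_, p, hp, rfl, hpP⟩
  obtain ⟨p, hp0, hpN, hpP⟩ := Nat.find_spec hex
  have hmin := fun m' (h : m' < Nat.find hex) => Nat.find_min hex h
  have hae : ∀ q : k[X], aeval (algebraMap S K s) q = algebraMap S K (q.eval₂ j s) := by
    intro q
    rw [Polynomial.hom_eval₂, aeval_def]
    congr 1
    ext c
    exact (hi c).symm
  have hp1 : 1 ≤ p.natDegree := by
    by_contra hcon
    have h0 : p.natDegree = 0 := by omega
    obtain ⟨c, rfl⟩ := natDegree_eq_zero.mp h0
    have hc : c ≠ 0 := by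
      rintro rfl
      exact hp0 (by simp)
    rw [eval₂_C] at hpP
    have hu : IsUnit (j c) := (isUnit_iff_ne_zero.mpr hc).map j
    exact P.isPrime.ne_top (Ideal.eq_top_of_isUnit_mem _ hpP hu)
  have hd0 : derivative p ≠ 0 := by
    intro h
    have := derivative_eq_zero.mp h
    omega
  have hdP : (derivative p).eval₂ j s ∉ P.asIdeal := by
    intro h
    have hlt : (derivative p).natDegree < p.natDegree := natDegree_derivative_lt (by omega)
    exact hmin (derivative p).natDegree (by rw [← hpN]; exact hlt) ⟨_, hd0, rfl, h⟩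
  have hd0' : (derivative p).eval₂ j s ≠ 0 := fun h => hdP (by rw [h]; exact P.asIdeal.zero_mem)
  refine ⟨p, ?_, ?_, ?_⟩
  · rw [hae]
    intro h
    have h0 : p.eval₂ j s ≠ 0 := by
      intro h1
      rw [h1, map_zero] at h
      exact h rfl
    have h4 : ((1 : ℕ) : ℤ) ≤ ordP P (algebraMap S K (p.eval₂ j s)) := by
      rw [le_ordP_alg_iff P h0, pow_one]
      exact hpP
    exact_mod_cast h4
  · rw [hae]
    simpa using hd0'
  · rw [hae]
    have h1 := ordP_alg_nonneg (K := K) P hd0'
    by_contra h2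
    have h3 : ((1 : ℕ) : ℤ) ≤ ordP P (algebraMap S K ((derivative p).eval₂ j s)) := by
      push_cast
      omega
    rw [le_ordP_alg_iff P hd0', pow_one] at h3
    exact hdP h3

end Res

/-- The valuations of `K` above a principal ideal domain `R` with fraction field `F`. -/
structure ChartN (k R F K : Type*) [Field k] [CommRing R] [Field F] [Algebra R F] [Field K]
    [Algebra F K] [Algebra k K] (D : Derivation k K K) where
  Pl : Type w
  ord : Pl → K → ℤ
  g : Pl → R
  g_ne : ∀ v, g v ≠ 0
  g_nu : ∀ v, ¬ IsUnit (g v)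
  val : ∀ v, Val k (ord v)
  ord_R : ∀ v (r : R), r ≠ 0 → 0 ≤ ord v (algebraMap F K (algebraMap R F r))
  fin : ∀ x, x ≠ 0 → {v | ord v x ≠ 0}.Finite
  norm : ∀ x, x ≠ 0 → ∀ T : Finset Pl, (∀ v, v ∉ T → ord v x = 0) →
    ∃ ε : R, IsUnit ε ∧ Algebra.norm F x = algebraMap R F ε *
      ∏ v ∈ T, (algebraMap R F (g v)) ^ (ord v x)
  integral : ∀ x, x ≠ 0 → (∀ v, 0 ≤ ord v x) → ∀ n, ∃ r : R,
    algebraMap R F r = (minpoly F x).coeff n
  dl : ∀ v, ∃ m : ℕ, ∀ x, x ≠ 0 → 0 ≤ ord v x → GG (ord v) (-m) (D x)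

/-- Existence of chart data. -/
lemma exists_chartN (k R F : Type*) (K : Type w) [Field k] [CharZero k] [CommRing R] [IsDomain R]
    [IsPrincipalIdealRing R] [Field F] [Algebra R F] [IsFractionRing R F] [Field K] [Algebra F K]
    [FiniteDimensional F K] [Algebra.IsSeparable F K] [Algebra k K] (D : Derivation k K K)
    (hR : ∀ r : R, ∃ r' : R, algebraMap F K (algebraMap R F r') =
      D (algebraMap F K (algebraMap R F r)))
    (i : k →+* R) (hi : ∀ c, algebraMap F K (algebraMap R F (i c)) = algebraMap k K c)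
    (hres : ∀ 𝔭 : Ideal R, 𝔭.IsPrime → 𝔭 ≠ ⊥ → ∀ r : R, ∃ q : k[X], q ≠ 0 ∧ q.eval₂ i r ∈ 𝔭) :
    Nonempty (ChartN.{w} k R F K D) := by
  letI : Algebra R K := ((algebraMap F K).comp (algebraMap R F)).toAlgebra
  haveI : IsScalarTower R F K := IsScalarTower.of_algebraMap_eq' rfl
  let S := integralClosure R K
  haveI : IsFractionRing S K := IsIntegralClosure.isFractionRing_of_finite_extension R F K S
  haveI : IsDedekindDomain S := IsIntegralClosure.isDedekindDomain R F K S
  haveI : Module.Finite R S := IsIntegralClosure.finite R F K S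
  have hinjRK : Function.Injective (algebraMap R K) :=
    (algebraMap F K).injective.comp (IsFractionRing.injective R F)
  have hinjRS : Function.Injective (algebraMap R S) := by
    intro a b hab
    apply hinjRK
    rw [IsScalarTower.algebraMap_apply R S K, IsScalarTower.algebraMap_apply R S K, hab]
  haveI : FaithfulSMul R S := (faithfulSMul_iff_algebraMap_injective R S).mpr hinjRS
  haveI : Module.IsTorsionFree R S := inferInstance
  set d : Derivation ℤ K K := D.restrictScalars ℤ with hd
  have hdD : ∀ x, d x = D x := fun _ => rfl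
  obtain ⟨δ, hδ0, hδ⟩ := exists_denom (S := S) (K := K) R d (by
    intro r
    obtain ⟨r', hr'⟩ := hR r
    refine ⟨algebraMap R S r', ?_⟩
    rw [← IsScalarTower.algebraMap_apply R S K]
    exact hr')
  have hiS : ∀ c, algebraMap S K (algebraMap R S (i c)) = algebraMap k K c := by
    intro c
    rw [← IsScalarTower.algebraMap_apply R S K]
    exact hi c
  exact ⟨{
    Pl := HeightOneSpectrum S
    ord := fun P x => ordP P x
    g := fun P => genP R P
    g_ne := fun P => genP_ne_zero P
    g_nu := fun P => genP_not_unit P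
    val := by
      intro P
      refine ⟨fun x y hx hy => ordP_mul P hx hy, fun x y m hx hy hxy h1 h2 =>
        ordP_add P m hx hy hxy h1 h2, ?_, ?_, ?_⟩
      · intro c hc
        have h1 := ordP_unit (K := K) P ((isUnit_iff_ne_zero.mpr hc).map
          ((algebraMap R S).comp i)).unit
        rw [IsUnit.unit_spec, RingHom.comp_apply, hiS] at h1
        exact h1
      · obtain ⟨π, hπ⟩ := P.valuation_exists_uniformizer K
        have hπ0 : π ≠ 0 := by
          rintro rfl
          rw [map_zero] at hπ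
          exact exp_ne_zero hπ.symm
        refine ⟨π, hπ0, ?_⟩
        unfold ordP
        rw [hπ]
        simp
      · intro x hx hx0
        obtain ⟨s, hs⟩ := exists_int_approx P x hx hx0
        obtain ⟨p, hp⟩ := exists_sep_mod (K := K) i hiS hres P s
        exact ⟨algebraMap S K s, hs, p, hp⟩
    ord_R := by
      intro P r hr
      have h1 := ordP_alg_nonneg (K := K) P (s := algebraMap R S r) (by
        rwa [Ne, map_eq_zero_iff _ hinjRS])
      rw [← IsScalarTower.algebraMap_apply R S K] at h1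
      exact h1
    fin := fun x hx => finite_ordP x hx
    norm := fun x hx T hT => norm_fact x hx T hT
    integral := by
      intro x hx h n
      obtain ⟨s, hs⟩ := exists_of_ordP_nonneg (S := S) x hx h
      have h1 : IsIntegral R x := by
        rw [← hs]
        exact s.2
      have h2 := minpoly.isIntegrallyClosed_eq_field_fractions' F h1
      refine ⟨(minpoly R x).coeff n, ?_⟩
      rw [h2, Polynomial.coeff_map]
    dl := by
      intro P
      refine ⟨(ordP P (algebraMap S K δ)).toNat, fun x hx hx0 hD => ?_⟩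
      have h1 := (ordP_D d δ hδ0 hδ P x hx hD).2 hx0
      rw [Int.toNat_of_nonneg (ordP_alg_nonneg P hδ0)]
      exact h1 }⟩

end Pool.Agent.W277.UD
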