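import Mathlib
import Pool.Agent.W277.UD.ChartN
import Pool.Agent.W277.UB.Gen

/-!
# The two charts
-/

namespace Pool.Agent.W277.UD

open Polynomial Pool.Agent.W277.UB

universe w

lemma res_poly (k : Type*) [Field k] (𝔭 : Ideal k[X]) (_h : 𝔭.IsPrime) (h0 : 𝔭 ≠ ⊥) (r : k[X]) :
    ∃ q : k[X], q ≠ 0 ∧ q.eval₂ (C : k →+* k[X]) r ∈ 𝔭 := by
  obtain ⟨f, hf, hf0⟩ := Submodule.exists_mem_ne_zero_of_ne_bot h0
  have hfin : Module.Finite k (AdjoinRoot f) := (AdjoinRoot.powerBasis hf0).finite
  have hint : IsIntegral k (AdjoinRoot.mk f r) := Algebra.IsIntegral.isIntegral _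
  refine ⟨minpoly k (AdjoinRoot.mk f r), minpoly.ne_zero hint, ?_⟩
  have h1 : AdjoinRoot.mk f ((minpoly k (AdjoinRoot.mk f r)).eval₂ (C : k →+* k[X]) r) = 0 := by
    rw [Polynomial.hom_eval₂]
    exact minpoly.aeval k (AdjoinRoot.mk f r)
  rw [AdjoinRoot.mk_eq_zero] at h1
  exact Ideal.mem_of_dvd _ h1 hf

lemma alg_mem_inf (k : Type*) [Field k] (c : k) : algebraMap k (RatFunc k) c ∈ InfRing k := by
  rw [mem_infRing]
  right
  have : algebraMap k (RatFunc k) c = RatFunc.C c := rfl
  rw [this, RatFunc.intDegree_C]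

/-- The constants in the ring at infinity. -/
noncomputable def infC (k : Type*) [Field k] : k →+* InfRing k :=
  RingHom.codRestrict (algebraMap k (RatFunc k)) (InfRing k) (alg_mem_inf k)

lemma infC_coe (k : Type*) [Field k] (c : k) : ((infC k c : InfRing k) : RatFunc k) =
    algebraMap k (RatFunc k) c := rfl

lemma exists_inf_approx (k : Type*) [Field k] (r : InfRing k) :
    ∃ c : k, (r : RatFunc k) - algebraMap k (RatFunc k) c = 0 ∨
      ((r : RatFunc k) - algebraMap k (RatFunc k) c).intDegree < 0 := by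
  by_cases hr0 : (r : RatFunc k) = 0
  · exact ⟨0, by left; rw [hr0, map_zero, sub_zero]⟩
  obtain ⟨a, b, ha, hb, hab⟩ := exists_mk' hr0
  have hmem := (mem_infRing k).mp r.2
  rw [or_iff_right hr0, hab, intDegree_mk a b ha hb] at hmem
  set N := b.natDegree with hN
  set c := a.coeff N / b.leadingCoeff with hc
  refine ⟨c, ?_⟩
  set p := a - C c * b with hp
  have hb' : algebraMap k[X] (RatFunc k) b ≠ 0 := by
    rwa [Ne, map_eq_zero_iff _ (RatFunc.algebraMap_injective k)]
  have h1 : (r : RatFunc k) - algebraMap k (RatFunc k) c =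
      algebraMap k[X] (RatFunc k) p / algebraMap k[X] (RatFunc k) b := by
    have h2 : algebraMap k (RatFunc k) c = algebraMap k[X] (RatFunc k) (C c) := by
      rw [RatFunc.algebraMap_C]
      rfl
    rw [hab, h2, hp, map_sub, map_mul]
    field_simp
  rw [h1]
  by_cases hp0 : p = 0
  · left
    rw [hp0, map_zero, zero_div]
  · right
    rw [intDegree_mk p b hp0 hb]
    have h2 : p.natDegree ≤ N := by
      rw [hp]
      refine (natDegree_sub_le _ _).trans (max_le (by omega) ?_)
      exact natDegree_C_mul_le _ _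
    have h3 : p.coeff N = 0 := by
      have h4 : b.leadingCoeff ≠ 0 := leadingCoeff_ne_zero.mpr hb
      rw [hp, coeff_sub, coeff_C_mul, hc, hN, coeff_natDegree]
      field_simp
      ring
    have h4 : p.natDegree ≠ N := by
      intro h
      rw [← h, coeff_natDegree, leadingCoeff_eq_zero] at h3
      exact hp0 h3
    omega

lemma res_inf (k : Type*) [Field k] (𝔭 : Ideal (InfRing k)) (h : 𝔭.IsPrime) (h0 : 𝔭 ≠ ⊥)
    (r : InfRing k) : ∃ q : k[X], q ≠ 0 ∧ q.eval₂ (infC k) r ∈ 𝔭 := by
  obtain ⟨c, hc⟩ := exists_inf_approx k r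
  refine ⟨X - C c, X_sub_C_ne_zero c, ?_⟩
  rw [eval₂_sub, eval₂_X, eval₂_C]
  have hmax : 𝔭.IsMaximal := h.isMaximal h0
  rw [IsLocalRing.eq_maximalIdeal hmax, IsLocalRing.mem_maximalIdeal, mem_nonunits_iff]
  intro hu
  have h1 := intDegree_unit k _ hu
  have h2 : ((r - infC k c : InfRing k) : RatFunc k) =
      (r : RatFunc k) - algebraMap k (RatFunc k) c := rfl
  rw [h2] at h1
  rcases hc with hc | hc
  · have h3 : r - infC k c = 0 := by
      apply Subtype.ext
      rw [h2, hc]
      rfl
    rw [h3] at hu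
    exact not_isUnit_zero hu
  · omega

section Two

variable (k : Type*) (K : Type w) [Field k] [CharZero k] [Field K] [Algebra k K]
  [Algebra (RatFunc k) K] [IsScalarTower k (RatFunc k) K] [FiniteDimensional (RatFunc k) K]

/-- The chart above the affine line. -/
theorem exists_chart1 (D : Derivation k K K)
    (hD : ∀ x : RatFunc k, D (algebraMap (RatFunc k) K x) = algebraMap (RatFunc k) K (ratD k x)) :
    Nonempty (ChartN.{w} k k[X] (RatFunc k) K D) := by
  have : CharZero (RatFunc k) := charZero_of_injective_algebraMap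
    (algebraMap k (RatFunc k)).injective
  refine exists_chartN k k[X] (RatFunc k) K D ?_ C ?_ (res_poly k)
  · intro r
    refine ⟨derivative r, ?_⟩
    rw [hD, ratD_alg]
  · intro c
    rw [RatFunc.algebraMap_C, IsScalarTower.algebraMap_apply k (RatFunc k) K]
    rfl

/-- The chart at infinity. -/
theorem exists_chart2 (D : Derivation k K K)
    (hD : ∀ x : RatFunc k, D (algebraMap (RatFunc k) K x) = algebraMap (RatFunc k) K (ratD k x)) :
    Nonempty (ChartN.{w} k (InfRing k) (RatFunc k) K D) := by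
  have : CharZero (RatFunc k) := charZero_of_injective_algebraMap
    (algebraMap k (RatFunc k)).injective
  refine exists_chartN k (InfRing k) (RatFunc k) K D ?_ (infC k) ?_ (res_inf k)
  · intro r
    refine ⟨⟨_, ratD_inf k r⟩, ?_⟩
    rw [ValuationSubring.algebraMap_apply, ValuationSubring.algebraMap_apply, hD]
  · intro c
    rw [ValuationSubring.algebraMap_apply, infC_coe,
      ← IsScalarTower.algebraMap_apply k (RatFunc k) K]

end Two

end Pool.Agent.W277.UD
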