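import Mathlib
import Pool.Agent.W277.UD.Res

/-!
# The equation of a generator and its degrees
-/

namespace Pool.Agent.W277.UD

open Polynomial Pool.Agent.W277.UB Finset

universe w

section Add

variable {R F : Type*} [CommRing R] [Field F] [Algebra R F] {l : F → ℤ}

lemma AddFn_one (hl : AddFn R l) : l 1 = 0 := by
  have := hl.unit 1 isUnit_one
  rwa [map_one] at this

lemma AddFn_inv (hl : AddFn R l) {x : F} (hx : x ≠ 0) : l x⁻¹ = - l x := by
  have h := hl.mul x x⁻¹ hx (inv_ne_zero hx)
  rw [mul_inv_cancel₀ hx, AddFn_one hl] at h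
  linarith

lemma AddFn_pow (hl : AddFn R l) {x : F} (hx : x ≠ 0) (n : ℕ) : l (x ^ n) = n * l x := by
  induction n with
  | zero => rw [pow_zero, AddFn_one hl]; simp
  | succ n ih =>
    rw [pow_succ, hl.mul _ _ (pow_ne_zero _ hx) hx, ih]
    push_cast
    ring

lemma AddFn_zpow (hl : AddFn R l) {x : F} (hx : x ≠ 0) (n : ℤ) : l (x ^ n) = n * l x := by
  cases n with
  | ofNat n => simpa using AddFn_pow hl hx n
  | negSucc n =>
    rw [zpow_negSucc, AddFn_inv hl (pow_ne_zero _ hx), AddFn_pow hl hx]
    push_cast [Int.negSucc_eq]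
    ring

lemma AddFn_prod (hl : AddFn R l) {ι : Type*} (T : Finset ι) (f : ι → F)
    (hf : ∀ i ∈ T, f i ≠ 0) : l (∏ i ∈ T, f i) = ∑ i ∈ T, l (f i) := by
  classical
  induction T using Finset.induction_on with
  | empty => simp [AddFn_one hl]
  | insert a s ha ih =>
    rw [Finset.prod_insert ha, Finset.sum_insert ha, hl.mul _ _ (hf a (Finset.mem_insert_self a s)),
      ih fun i hi => hf i (Finset.mem_insert_of_mem hi)]
    rw [Finset.prod_ne_zero_iff]
    exact fun i hi => hf i (Finset.mem_insert_of_mem hi)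

end Add

lemma ChartN.g_ne' {k R F K : Type*} [Field k] [CommRing R] [Field F] [Algebra R F] [Field K]
    [Algebra F K] [Algebra k K] {D : Derivation k K K} [FaithfulSMul R F]
    (ch : ChartN.{w} k R F K D) (v : ch.Pl) : algebraMap R F (ch.g v) ≠ 0 := by
  rw [Ne, map_eq_zero_iff _ (FaithfulSMul.algebraMap_injective R F)]
  exact ch.g_ne v

/-- The norm formula. -/
lemma ChartN.sum {k R F K : Type*} [Field k] [CommRing R] [Field F] [Algebra R F] [Field K]
    [Algebra F K] [Algebra k K] {D : Derivation k K K} [FaithfulSMul R F]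
    (ch : ChartN.{w} k R F K D) {l : F → ℤ} (hl : AddFn R l) (x : K) (hx : x ≠ 0)
    (T : Finset ch.Pl) (hT : ∀ v, v ∉ T → ch.ord v x = 0) :
    ∑ v ∈ T, l (algebraMap R F (ch.g v)) * ch.ord v x = l (Algebra.norm F x) := by
  obtain ⟨ε, hε, h⟩ := ch.norm x hx T hT
  rw [h, hl.mul, hl.unit _ hε, zero_add, AddFn_prod hl]
  · refine Finset.sum_congr rfl fun v _ => ?_
    rw [AddFn_zpow hl (ch.g_ne' v)]
    ring
  · intro v _
    exact zpow_ne_zero _ (ch.g_ne' v)
  · rw [Ne, map_eq_zero_iff _ (FaithfulSMul.algebraMap_injective R F)]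
    rintro rfl
    have : Nontrivial R := ⟨⟨ch.g (Classical.choice (by
      by_contra hcon
      rw [not_nonempty_iff] at hcon
      have h1 : T = ∅ := by
        ext v
        exact hcon.elim v
      subst h1
      have h2 := (FaithfulSMul.algebraMap_injective R F)
      have h3 : (1 : R) = 0 := by
        obtain ⟨b, hb⟩ := hε.exists_right_inv
        rw [zero_mul] at hb
        exact hb.symm
      have h4 : (1 : F) = 0 := by
        rw [← map_one (algebraMap R F), h3, map_zero]
      exact one_ne_zero h4)), 0, ch.g_ne _⟩⟩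
    exact not_isUnit_zero hε
  · rw [Finset.prod_ne_zero_iff]
    exact fun v _ => zpow_ne_zero _ (ch.g_ne' v)

/-- Norms of translates of a generator. -/
lemma norm_sub_gen {F K : Type*} [Field F] [Field K] [Algebra F K] [FiniteDimensional F K] (u : K)
    (hgen : IntermediateField.adjoin F {u} = ⊤) (c : F) :
    Algebra.norm F (u - algebraMap F K c) =
      (-1) ^ (minpoly F u).natDegree * (minpoly F u).eval c := by
  set x := u - algebraMap F K c with hx
  have hint : IsIntegral F x := IsIntegral.of_finite F x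
  have h1 : IntermediateField.adjoin F {x} = ⊤ := by
    rw [eq_top_iff, ← hgen, IntermediateField.adjoin_le_iff]
    intro y hy
    rw [Set.mem_singleton_iff] at hy
    subst hy
    have h2 : y = x + algebraMap F K c := by rw [hx]; ring
    rw [SetLike.mem_coe, h2]
    exact add_mem (IntermediateField.mem_adjoin_simple_self F x)
      (IntermediateField.algebraMap_mem _ c)
  have h2 : Algebra.adjoin F {x} = ⊤ := by
    rw [← IntermediateField.adjoin_simple_toSubalgebra_of_isAlgebraic hint.isAlgebraic, h1,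
      IntermediateField.top_toSubalgebra]
  have h3 := Algebra.PowerBasis.norm_gen_eq_coeff_zero_minpoly (PowerBasis.ofAdjoinEqTop' hint h2)
  rw [PowerBasis.ofAdjoinEqTop'_gen, PowerBasis.ofAdjoinEqTop'_dim] at h3
  rw [h3, hx, minpoly.sub_algebraMap, coeff_zero_eq_eval_zero, eval_comp, natDegree_comp]
  simp

lemma coeff_mem_of_eval {k M : Type*} [Field k] [Field M] [Algebra k M] [Infinite k]
    (V : Submodule k M) (p : M[X]) (h : ∀ c : k, p.eval (algebraMap k M c) ∈ V) (j : ℕ) :
    p.coeff j ∈ V := by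
  classical
  set N := p.natDegree + 1 with hN
  let a : Fin N → k := fun i => Infinite.natEmbedding k i
  have ha : Function.Injective a := (Infinite.natEmbedding k).injective.comp Fin.val_injective
  have ha' : Function.Injective (fun i => algebraMap k M (a i)) :=
    (algebraMap k M).injective.comp ha
  have h1 : p = Lagrange.interpolate univ (fun i => algebraMap k M (a i))
      (fun i => p.eval (algebraMap k M (a i))) := by
    apply Lagrange.eq_interpolate ha'.injOn
    rw [Finset.card_univ, Fintype.card_fin]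
    refine lt_of_le_of_lt degree_le_natDegree ?_
    exact_mod_cast Nat.lt_succ_self _
  have h2 : ∀ i, Lagrange.basis univ (fun i => algebraMap k M (a i)) i =
      (Lagrange.basis univ a i).map (algebraMap k M) := by
    intro i
    simp only [Lagrange.basis, Polynomial.map_prod]
    refine Finset.prod_congr rfl fun j _ => ?_
    simp [Lagrange.basisDivisor]
  rw [h1, Lagrange.interpolate_apply, finsetSum_coeff]
  refine Submodule.sum_mem _ fun i _ => ?_
  rw [coeff_C_mul, h2, coeff_map, mul_comm, ← Algebra.smul_def]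
  exact Submodule.smul_mem _ _ (h _)

section Main

variable {k : Type*} {K : Type w} [Field k] [CharZero k] [Field K] [Algebra k K]
  [Algebra (RatFunc k) K] [IsScalarTower k (RatFunc k) K] [FiniteDimensional (RatFunc k) K]
  {D : Derivation k K K}

/-- The order of the pole. -/
noncomputable def pl (o : K → ℤ) (x : K) : ℤ := max 0 (- o x)

lemma pl_nonneg (o : K → ℤ) (x : K) : 0 ≤ pl o x := le_max_left _ _

omit [CharZero k] [IsScalarTower k (RatFunc k) K] [FiniteDimensional (RatFunc k) K] in
lemma exists_den (c1 : ChartN.{w} k k[X] (RatFunc k) K D)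
    (c2 : ChartN.{w} k (InfRing k) (RatFunc k) K D) (u : K)
    (T1 : Finset c1.Pl) (hT1 : ∀ v, v ∉ T1 → pl (c1.ord v) u = 0)
    (T2 : Finset c2.Pl) (hT2 : ∀ v, v ∉ T2 → pl (c2.ord v) u = 0) :
    ∃ Den : k[X], Den ≠ 0 ∧ ∀ x : K, x ≠ 0 → (∀ v, - pl (c1.ord v) u ≤ c1.ord v x) →
      (∀ v, - pl (c2.ord v) u ≤ c2.ord v x) →
      ∃ p : k[X], algebraMap k[X] (RatFunc k) p =
        algebraMap k[X] (RatFunc k) Den * Algebra.norm (RatFunc k) x ∧
        (p.natDegree : ℤ) ≤ ∑ v ∈ T1, (algebraMap k[X] (RatFunc k) (c1.g v)).intDegree *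
          pl (c1.ord v) u +
        ∑ v ∈ T2, (-(algebraMap (InfRing k) (RatFunc k) (c2.g v)).intDegree) *
          pl (c2.ord v) u := by
  classical
  set Den : k[X] := ∏ v ∈ T1, (c1.g v) ^ (pl (c1.ord v) u).toNat with hDen
  have hDen0 : Den ≠ 0 := by
    rw [hDen, Finset.prod_ne_zero_iff]
    exact fun v _ => pow_ne_zero _ (c1.g_ne v)
  refine ⟨Den, hDen0, fun x hx hx1 hx2 => ?_⟩
  have hfin1 := c1.fin x hx
  have hfin2 := c2.fin x hx
  set T := T1 ∪ hfin1.toFinset with hT
  have hTx : ∀ v, v ∉ T → c1.ord v x = 0 := by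
    intro v hv
    by_contra h
    exact hv (by simp [hT, h])
  obtain ⟨ε, hε, hn⟩ := c1.norm x hx T hTx
  set p : k[X] := ε * ∏ v ∈ T, (c1.g v) ^ (pl (c1.ord v) u + c1.ord v x).toNat with hp
  have hDenT : algebraMap k[X] (RatFunc k) Den = ∏ v ∈ T,
      (algebraMap k[X] (RatFunc k) (c1.g v)) ^ (pl (c1.ord v) u) := by
    rw [hDen, map_prod]
    have h1 : ∏ v ∈ T1, algebraMap k[X] (RatFunc k) (c1.g v ^ (pl (c1.ord v) u).toNat) =
        ∏ v ∈ T1, (algebraMap k[X] (RatFunc k) (c1.g v)) ^ (pl (c1.ord v) u) := by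
      refine Finset.prod_congr rfl fun v _ => ?_
      rw [map_pow, ← zpow_natCast, Int.toNat_of_nonneg (pl_nonneg _ _)]
    rw [h1]
    apply Finset.prod_subset Finset.subset_union_left
    intro v _ hv
    rw [hT1 v hv, zpow_zero]
  have hpe : algebraMap k[X] (RatFunc k) p =
      algebraMap k[X] (RatFunc k) Den * Algebra.norm (RatFunc k) x := by
    rw [hn, hDenT, hp, map_mul, map_prod, mul_left_comm, ← Finset.prod_mul_distrib]
    congr 1
    refine Finset.prod_congr rfl fun v _ => ?_
    rw [map_pow, ← zpow_add₀ (c1.g_ne' v), ← zpow_natCast, Int.toNat_of_nonneg]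
    have := hx1 v
    linarith
  refine ⟨p, hpe, ?_⟩
  have hε0 : ε ≠ 0 := hε.ne_zero
  have hp0 : p ≠ 0 := by
    rw [hp]
    refine mul_ne_zero hε0 ?_
    rw [Finset.prod_ne_zero_iff]
    exact fun v _ => pow_ne_zero _ (c1.g_ne v)
  have hDen0' : algebraMap k[X] (RatFunc k) Den ≠ 0 := by
    rwa [Ne, map_eq_zero_iff _ (RatFunc.algebraMap_injective k)]
  have hp0' : algebraMap k[X] (RatFunc k) p ≠ 0 := by
    rwa [Ne, map_eq_zero_iff _ (RatFunc.algebraMap_injective k)]
  rw [hpe] at hp0'
  have hd : (p.natDegree : ℤ) = (algebraMap k[X] (RatFunc k) Den).intDegree +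
      (Algebra.norm (RatFunc k) x).intDegree := by
    rw [← RatFunc.intDegree_mul (left_ne_zero_of_mul hp0') (right_ne_zero_of_mul hp0'), ← hpe,
      RatFunc.intDegree_polynomial]
  rw [hd]
  apply add_le_add
  · have h1 : algebraMap k[X] (RatFunc k) Den = ∏ v ∈ T1,
        (algebraMap k[X] (RatFunc k) (c1.g v)) ^ (pl (c1.ord v) u) := by
      rw [hDen, map_prod]
      refine Finset.prod_congr rfl fun v _ => ?_
      rw [map_pow, ← zpow_natCast, Int.toNat_of_nonneg (pl_nonneg _ _)]
    rw [h1, AddFn_prod (addFn_poly k) _ _ fun v _ => zpow_ne_zero _ (c1.g_ne' v)]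
    refine le_of_eq (Finset.sum_congr rfl fun v _ => ?_)
    rw [AddFn_zpow (addFn_poly k) (c1.g_ne' v)]
    ring
  · have h1 := c2.sum (addFn_inf k) x hx (T2 ∪ hfin2.toFinset) (by
      intro v hv
      by_contra h
      exact hv (by simp [h]))
    have h2 : ∑ v ∈ T2, (-(algebraMap (InfRing k) (RatFunc k) (c2.g v)).intDegree) *
          pl (c2.ord v) u = ∑ v ∈ T2 ∪ hfin2.toFinset,
            (-(algebraMap (InfRing k) (RatFunc k) (c2.g v)).intDegree) * pl (c2.ord v) u := by
      apply Finset.sum_subset Finset.subset_union_left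
      intro v _ hv
      rw [hT2 v hv, mul_zero]
    rw [h2]
    have h3 : (Algebra.norm (RatFunc k) x).intDegree = - ∑ v ∈ T2 ∪ hfin2.toFinset,
        (-(algebraMap (InfRing k) (RatFunc k) (c2.g v)).intDegree) * c2.ord v x := by
      rw [h1]
      ring
    rw [h3, ← Finset.sum_neg_distrib]
    refine Finset.sum_le_sum fun v _ => ?_
    have h4 := pos_inf k (c2.g v) (c2.g_ne v) (c2.g_nu v)
    have h5 := hx2 v
    nlinarith

/-- The equation of a generator. -/
theorem exists_F (c1 : ChartN.{w} k k[X] (RatFunc k) K D)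
    (c2 : ChartN.{w} k (InfRing k) (RatFunc k) K D) (u : K)
    (hgen : IntermediateField.adjoin (RatFunc k) {u} = ⊤) (hu : ∀ c : k, u ≠ algebraMap k K c)
    (T1 : Finset c1.Pl) (hT1 : ∀ v, v ∉ T1 → pl (c1.ord v) u = 0)
    (T2 : Finset c2.Pl) (hT2 : ∀ v, v ∉ T2 → pl (c2.ord v) u = 0) :
    ∃ F : ℕ → k[X], (∀ j, ((F j).natDegree : ℤ) ≤
        ∑ v ∈ T1, (algebraMap k[X] (RatFunc k) (c1.g v)).intDegree * pl (c1.ord v) u +
        ∑ v ∈ T2, (-(algebraMap (InfRing k) (RatFunc k) (c2.g v)).intDegree) *
          pl (c2.ord v) u) ∧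
      ∑ j ∈ range (Module.finrank (RatFunc k) K + 1),
        algebraMap (RatFunc k) K (algebraMap k[X] (RatFunc k) (F j)) * u ^ j = 0 ∧
      ∑ j ∈ range (Module.finrank (RatFunc k) K + 1),
        algebraMap (RatFunc k) K (algebraMap k[X] (RatFunc k) (F j)) * (j : K) * u ^ (j - 1) ≠
          0 := by
  classical
  have : CharZero (RatFunc k) := charZero_of_injective_algebraMap
    (algebraMap k (RatFunc k)).injective
  obtain ⟨Den, hDen0, hDen⟩ := exists_den c1 c2 u T1 hT1 T2 hT2
  set B := ∑ v ∈ T1, (algebraMap k[X] (RatFunc k) (c1.g v)).intDegree * pl (c1.ord v) u +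
        ∑ v ∈ T2, (-(algebraMap (InfRing k) (RatFunc k) (c2.g v)).intDegree) *
          pl (c2.ord v) u with hB
  set m := minpoly (RatFunc k) u with hm
  set n := Module.finrank (RatFunc k) K with hn
  have hmn : m.natDegree = n := (Field.primitive_element_iff_minpoly_natDegree_eq _ _).mp hgen
  have hu0 : u ≠ 0 := by
    have := hu 0
    rwa [map_zero] at this
  -- values
  have hval : ∀ c : k, ∃ p : k[X], algebraMap k[X] (RatFunc k) p =
      algebraMap k[X] (RatFunc k) Den * m.eval (algebraMap k (RatFunc k) c) ∧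
      (p.natDegree : ℤ) ≤ B := by
    intro c
    have hne : u - algebraMap k K c ≠ 0 := sub_ne_zero.mpr (hu c)
    have hord : ∀ (o : K → ℤ), Val k o → - pl o u ≤ o (u - algebraMap k K c) := by
      intro o ho
      have h1 : GG o (- pl o u) (u - algebraMap k K c) := by
        apply ho.GG_sub
        · intro _
          unfold pl
          have := le_max_right 0 (- o u)
          linarith
        · intro h
          have hc : c ≠ 0 := by
            rintro rfl
            exact h (map_zero _)
          rw [ho.alg c hc]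
          have := pl_nonneg o u
          linarith
      exact h1 hne
    obtain ⟨p, hp1, hp2⟩ := hDen _ hne (fun v => hord _ (c1.val v)) (fun v => hord _ (c2.val v))
    have hnorm := norm_sub_gen u hgen (algebraMap k (RatFunc k) c)
    rw [← IsScalarTower.algebraMap_apply] at hnorm
    rw [hnorm] at hp1
    refine ⟨(-1) ^ m.natDegree * p, ?_, ?_⟩
    · rw [map_mul, hp1, map_pow, map_neg, map_one, ← hm]
      have h1 : ((-1 : RatFunc k) ^ m.natDegree) * ((-1) ^ m.natDegree) = 1 := by
        rw [← mul_pow]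
        simp
      linear_combination (algebraMap k[X] (RatFunc k) Den *
        m.eval (algebraMap k (RatFunc k) c)) * h1
    · refine le_trans ?_ hp2
      rcases neg_one_pow_eq_or k[X] m.natDegree with h | h
      · rw [h, one_mul]
      · rw [h, neg_one_mul, natDegree_neg]
  -- the space of polynomials of bounded degree
  let V : Submodule k (RatFunc k) := (degreeLE k (B.toNat : ℕ)).map
    (IsScalarTower.toAlgHom k k[X] (RatFunc k)).toLinearMap
  have hco : ∀ j, (C (algebraMap k[X] (RatFunc k) Den) * m).coeff j ∈ V := by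
    apply coeff_mem_of_eval
    intro c
    obtain ⟨p, hp1, hp2⟩ := hval c
    rw [eval_mul, eval_C, ← hp1]
    refine ⟨p, ?_, rfl⟩
    rw [SetLike.mem_coe, mem_degreeLE]
    refine degree_le_of_natDegree_le ?_
    omega
  have hco' : ∀ j, ∃ p : k[X], algebraMap k[X] (RatFunc k) p =
      algebraMap k[X] (RatFunc k) Den * m.coeff j ∧ p.natDegree ≤ B.toNat := by
    intro j
    obtain ⟨p, hp1, hp2⟩ := hco j
    rw [SetLike.mem_coe, mem_degreeLE] at hp1
    rw [coeff_C_mul] at hp2
    exact ⟨p, hp2, natDegree_le_of_degree_le hp1⟩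
  choose F hF1 hF2 using hco'
  have hB0 : 0 ≤ B := by
    obtain ⟨p, -, hp⟩ := hval 0
    have : (0 : ℤ) ≤ p.natDegree := Int.natCast_nonneg _
    linarith
  have hDen0' : algebraMap (RatFunc k) K (algebraMap k[X] (RatFunc k) Den) ≠ 0 := by
    rw [_root_.map_ne_zero, Ne, map_eq_zero_iff _ (RatFunc.algebraMap_injective k)]
    exact hDen0
  refine ⟨F, ?_, ?_, ?_⟩
  · intro j
    have := hF2 j
    omega
  · have h1 : aeval u m = 0 := minpoly.aeval _ _
    rw [aeval_eq_sum_range, hmn] at h1
    have h2 : ∑ j ∈ range (n + 1), algebraMap (RatFunc k) K (algebraMap k[X] (RatFunc k) (F j)) *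
        u ^ j = algebraMap (RatFunc k) K (algebraMap k[X] (RatFunc k) Den) *
          ∑ j ∈ range (n + 1), m.coeff j • u ^ j := by
      rw [Finset.mul_sum]
      refine Finset.sum_congr rfl fun j _ => ?_
      rw [hF1, map_mul, Algebra.smul_def]
      ring
    rw [h2, h1, mul_zero]
  · have h1 : aeval u (derivative m) ≠ 0 := by
      have hsep : m.Separable := (minpoly.irreducible (IsIntegral.of_finite _ u)).separable
      exact hsep.aeval_derivative_ne_zero (minpoly.aeval _ _)
    have h2 : aeval u (derivative m) = ∑ j ∈ range (n + 1),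
        algebraMap (RatFunc k) K (m.coeff j) * (j : K) * u ^ (j - 1) := by
      conv_lhs => rw [as_sum_range_C_mul_X_pow m, hmn]
      simp only [derivative_sum, derivative_C_mul_X_pow, map_sum, map_mul, aeval_C, map_pow,
        aeval_X, map_natCast]
    have h3 : ∑ j ∈ range (n + 1), algebraMap (RatFunc k) K (algebraMap k[X] (RatFunc k) (F j)) *
        (j : K) * u ^ (j - 1) = algebraMap (RatFunc k) K (algebraMap k[X] (RatFunc k) Den) *
          aeval u (derivative m) := by
      rw [h2, Finset.mul_sum]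
      refine Finset.sum_congr rfl fun j _ => ?_
      rw [hF1, map_mul]
      ring
    rw [h3]
    exact mul_ne_zero hDen0' h1

end Main

end Pool.Agent.W277.UD
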