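import Mathlib
import Pool.Agent.W277.UD.Seid

/-!
# The Hamiltonian derivation of a curve in a product of lines
-/

namespace Pool.Agent.W277.UD

open Polynomial Finset

variable {k L : Type*} [Field k] [Field L] [Algebra k L]

/-- `(a, b)` is a point of the curve `∑ c i j X ^ i Y ^ j = 0`, and `Δ` is the associated
Hamiltonian derivation. -/
structure Model (a b : L) (c : ℕ → ℕ → k) (H N : ℕ) (Δ : Derivation k L L) : Prop where
  rel : ∑ i ∈ range (H + 1), ∑ j ∈ range (N + 1), algebraMap k L (c i j) * a ^ i * b ^ j = 0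
  da : Δ a = ∑ i ∈ range (H + 1), ∑ j ∈ range (N + 1),
    algebraMap k L (c i j) * (j : L) * a ^ i * b ^ (j - 1)
  db : Δ b = - ∑ i ∈ range (H + 1), ∑ j ∈ range (N + 1),
    algebraMap k L (c i j) * (i : L) * a ^ (i - 1) * b ^ j

variable {a b : L} {c : ℕ → ℕ → k} {H N : ℕ} {Δ : Derivation k L L}

lemma Model.swap (h : Model a b c H N Δ) : Model b a (fun j i => c i j) N H (-Δ) := by
  refine ⟨?_, ?_, ?_⟩
  · rw [Finset.sum_comm, ← h.rel]
    refine Finset.sum_congr rfl fun i _ => Finset.sum_congr rfl fun j _ => ?_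
    ring
  · rw [Derivation.coe_neg, Pi.neg_apply, h.db, neg_neg, Finset.sum_comm]
    refine Finset.sum_congr rfl fun i _ => Finset.sum_congr rfl fun j _ => ?_
    ring
  · rw [Derivation.coe_neg, Pi.neg_apply, h.da, Finset.sum_comm]
    congr 1
    refine Finset.sum_congr rfl fun i _ => Finset.sum_congr rfl fun j _ => ?_
    ring

lemma Model.flip (h : Model a b c H N Δ) (hb : b ≠ 0) (hN : 2 ≤ N) :
    Model a b⁻¹ (fun i j => c i (N - j)) H N ((-(b⁻¹) ^ (N - 2)) • Δ) := by
  have hrefl : ∀ g : ℕ → L, ∑ j ∈ range (N + 1), g j = ∑ j ∈ range (N + 1), g (N - j) := by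
    intro g
    rw [← Finset.sum_range_reflect]
    refine Finset.sum_congr rfl fun j hj => ?_
    congr 1
  have hpow : ∀ j ∈ range (N + 1), (b⁻¹) ^ (N - j) = (b⁻¹) ^ N * b ^ j := by
    intro j hj
    have hj' : j ≤ N := by
      rw [Finset.mem_range] at hj
      omega
    have h1 : N = (N - j) + j := by omega
    conv_rhs => rw [h1, pow_add]
    rw [mul_assoc, ← mul_pow, inv_mul_cancel₀ hb, one_pow, mul_one]
  refine ⟨?_, ?_, ?_⟩
  · have h1 : ∑ i ∈ range (H + 1), ∑ j ∈ range (N + 1),
        algebraMap k L (c i (N - j)) * a ^ i * (b⁻¹) ^ j =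
        (b⁻¹) ^ N * ∑ i ∈ range (H + 1), ∑ j ∈ range (N + 1),
          algebraMap k L (c i j) * a ^ i * b ^ j := by
      rw [Finset.mul_sum]
      refine Finset.sum_congr rfl fun i _ => ?_
      rw [Finset.mul_sum, hrefl]
      refine Finset.sum_congr rfl fun j hj => ?_
      have hj' : j ≤ N := by
        rw [Finset.mem_range] at hj
        omega
      rw [hpow j hj, Nat.sub_sub_self hj']
      ring
    rw [h1, h.rel, mul_zero]
  · -- `∑ (N - j) c a^i b'^(N-j-1)`
    have h1 : ∑ i ∈ range (H + 1), ∑ j ∈ range (N + 1),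
        algebraMap k L (c i (N - j)) * (j : L) * a ^ i * (b⁻¹) ^ (j - 1) =
        ∑ i ∈ range (H + 1), ∑ j ∈ range (N + 1),
          (algebraMap k L (c i j) * ((N : L) - j) * a ^ i * ((b⁻¹) ^ (N - 1) * b ^ j)) := by
      refine Finset.sum_congr rfl fun i _ => ?_
      rw [hrefl]
      refine Finset.sum_congr rfl fun j hj => ?_
      have hj' : j ≤ N := by
        rw [Finset.mem_range] at hj
        omega
      rw [Nat.sub_sub_self hj']
      rcases eq_or_lt_of_le hj' with h2 | h2
      · subst h2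
        simp
      · have h3 : (b⁻¹) ^ (N - j - 1) = (b⁻¹) ^ (N - 1) * b ^ j := by
          have h4 : N - 1 = (N - j - 1) + j := by omega
          conv_rhs => rw [h4, pow_add]
          rw [mul_assoc, ← mul_pow, inv_mul_cancel₀ hb, one_pow, mul_one]
        rw [h3, Nat.cast_sub hj']
    have h2 : ∑ i ∈ range (H + 1), ∑ j ∈ range (N + 1),
          (algebraMap k L (c i j) * ((N : L) - j) * a ^ i * ((b⁻¹) ^ (N - 1) * b ^ j)) =
        (b⁻¹) ^ (N - 1) * N * ∑ i ∈ range (H + 1), ∑ j ∈ range (N + 1),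
          algebraMap k L (c i j) * a ^ i * b ^ j -
        (b⁻¹) ^ (N - 2) * ∑ i ∈ range (H + 1), ∑ j ∈ range (N + 1),
          algebraMap k L (c i j) * (j : L) * a ^ i * b ^ (j - 1) := by
      simp only [Finset.mul_sum, ← Finset.sum_sub_distrib]
      refine Finset.sum_congr rfl fun i _ => Finset.sum_congr rfl fun j hj => ?_
      have h5 : (b⁻¹) ^ (N - 1) = (b⁻¹) ^ (N - 2) * b⁻¹ := by
        rw [← pow_succ]
        congr 1
        omega
      rcases Nat.eq_zero_or_pos j with h3 | h3
      · subst h3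
        simp
        ring
      · have h4 : b ^ j = b ^ (j - 1) * b := by
          rw [← pow_succ]
          congr 1
          omega
        rw [h5, h4]
        field_simp
    rw [h1, h2, h.rel, mul_zero, zero_sub, Derivation.coe_smul, Pi.smul_apply, smul_eq_mul, h.da]
    ring
  · rw [Derivation.coe_smul, Pi.smul_apply, smul_eq_mul, Derivation.leibniz_inv, h.db]
    have h1 : ∑ i ∈ range (H + 1), ∑ j ∈ range (N + 1),
        algebraMap k L (c i (N - j)) * (i : L) * a ^ (i - 1) * (b⁻¹) ^ j =
        (b⁻¹) ^ N * ∑ i ∈ range (H + 1), ∑ j ∈ range (N + 1),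
          algebraMap k L (c i j) * (i : L) * a ^ (i - 1) * b ^ j := by
      rw [Finset.mul_sum]
      refine Finset.sum_congr rfl fun i _ => ?_
      rw [Finset.mul_sum, hrefl]
      refine Finset.sum_congr rfl fun j hj => ?_
      have hj' : j ≤ N := by
        rw [Finset.mem_range] at hj
        omega
      rw [hpow j hj, Nat.sub_sub_self hj']
      ring
    rw [h1]
    have h2 : (b⁻¹) ^ N = (b⁻¹) ^ (N - 2) * (b⁻¹) ^ 2 := by
      rw [← pow_add]
      congr 1
      omega
    rw [h2]
    simp only [smul_eq_mul]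
    ring

/-- The derivation preserves the coordinate ring. -/
lemma Model.stable (h : Model a b c H N Δ) : ∀ x ∈ Algebra.adjoin k ({a, b} : Set L),
    Δ x ∈ Algebra.adjoin k ({a, b} : Set L) := by
  have ha : a ∈ Algebra.adjoin k ({a, b} : Set L) := Algebra.subset_adjoin (by simp)
  have hb : b ∈ Algebra.adjoin k ({a, b} : Set L) := Algebra.subset_adjoin (by simp)
  have hda : Δ a ∈ Algebra.adjoin k ({a, b} : Set L) := by
    rw [h.da]
    refine Subalgebra.sum_mem _ fun i _ => Subalgebra.sum_mem _ fun j _ => ?_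
    refine Subalgebra.mul_mem _ (Subalgebra.mul_mem _ (Subalgebra.mul_mem _ ?_ ?_) ?_) ?_
    · exact Subalgebra.algebraMap_mem _ _
    · exact natCast_mem _ _
    · exact Subalgebra.pow_mem _ ha _
    · exact Subalgebra.pow_mem _ hb _
  have hdb : Δ b ∈ Algebra.adjoin k ({a, b} : Set L) := by
    rw [h.db]
    refine Subalgebra.neg_mem _ (Subalgebra.sum_mem _ fun i _ => Subalgebra.sum_mem _ fun j _ => ?_)
    refine Subalgebra.mul_mem _ (Subalgebra.mul_mem _ (Subalgebra.mul_mem _ ?_ ?_) ?_) ?_
    · exact Subalgebra.algebraMap_mem _ _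
    · exact natCast_mem _ _
    · exact Subalgebra.pow_mem _ ha _
    · exact Subalgebra.pow_mem _ hb _
  intro x hx
  induction hx using Algebra.adjoin_induction with
  | mem x hx =>
    simp only [Set.mem_insert_iff, Set.mem_singleton_iff] at hx
    rcases hx with rfl | rfl
    · exact hda
    · exact hdb
  | algebraMap r =>
    rw [Derivation.map_algebraMap]
    exact Subalgebra.zero_mem _
  | add x y _ _ hx hy =>
    rw [map_add]
    exact Subalgebra.add_mem _ hx hy
  | mul x y hx' hy' hx hy =>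
    rw [Derivation.leibniz]
    simp only [smul_eq_mul]
    exact Subalgebra.add_mem _ (Subalgebra.mul_mem _ hx' hy) (Subalgebra.mul_mem _ hy' hx)

end Pool.Agent.W277.UD
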