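import Mathlib

/-!
# Generators of an extension in the span of a generating set over a small field
-/

namespace Pool.Agent.W277.UD

/-- A generator in the `k`-span of a generating set. -/
theorem exists_gen {k F E : Type*} [Field k] [Infinite k] [Field F] [Field E] [Algebra k F]
    [Algebra F E] [Algebra k E] [IsScalarTower k F E] [FiniteDimensional F E]
    [Algebra.IsSeparable F E] (P : Set E) (hP : IntermediateField.adjoin F P = ⊤) (z : E)
    (hz : z ∈ P) (hzc : ∀ c : k, z ≠ algebraMap k E c) :
    ∃ u ∈ Submodule.span k P, IntermediateField.adjoin F {u} = ⊤ ∧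
      ∀ c : k, u ≠ algebraMap k E c := by
  classical
  have hfin : Finite (IntermediateField F E) :=
    Field.exists_primitive_element_iff_finite_intermediateField F E |>.mp
      ⟨inferInstance, Field.exists_primitive_element F E⟩
  have := Fintype.ofFinite (IntermediateField F E)
  set V := Submodule.span k P with hV
  let W : IntermediateField F E → Submodule k V := fun M =>
    (M.toSubalgebra.toSubmodule.restrictScalars k).comap V.subtype
  let Wk : Submodule k V := (LinearMap.range (Algebra.linearMap k E)).comap V.subtype
  have hWk : Wk ≠ ⊤ := by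
    intro h
    have h1 : (⟨z, Submodule.subset_span hz⟩ : V) ∈ Wk := by
      rw [h]
      trivial
    obtain ⟨c, hc⟩ := h1
    exact hzc c hc.symm
  have hW : ∀ M, M ≠ ⊤ → W M ≠ ⊤ := by
    intro M hM h
    apply hM
    rw [eq_top_iff, ← hP, IntermediateField.adjoin_le_iff]
    intro x hx
    have h1 : (⟨x, Submodule.subset_span hx⟩ : V) ∈ W M := by
      rw [h]
      trivial
    exact h1
  let s : Finset (Submodule k V) := insert Wk ((Finset.univ.filter fun M => M ≠ ⊤).image W)
  have hs : ⊤ ∉ s := by
    intro h
    rw [Finset.mem_insert, Finset.mem_image] at h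
    rcases h with h | ⟨M, hM, h⟩
    · exact hWk h.symm
    · exact hW M (Finset.mem_filter.mp hM).2 h
  have h1 := Subspace.biUnion_ne_univ_of_top_notMem hs
  rw [Set.ne_univ_iff_exists_notMem] at h1
  obtain ⟨v, hv⟩ := h1
  simp only [Set.mem_iUnion, not_exists] at hv
  refine ⟨v, v.2, ?_, ?_⟩
  · by_contra hcon
    refine hv (W (IntermediateField.adjoin F {(v : E)})) ?_ ?_
    · refine Finset.mem_insert_of_mem (Finset.mem_image.mpr ⟨_, ?_, rfl⟩)
      rw [Finset.mem_filter]
      exact ⟨Finset.mem_univ _, hcon⟩
    · exact IntermediateField.mem_adjoin_simple_self F (v : E)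
  · intro c hc
    exact hv Wk (Finset.mem_insert_self _ _) ⟨c, hc.symm⟩

end Pool.Agent.W277.UD
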