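import Mathlib
import Pool.Agent.W277.UD.PlF
import Pool.Agent.W277.UD.Prim
import Pool.Agent.W277.UC.FinP

/-!
# Polynomials with a gap over extensions of bounded degree
-/

namespace Pool.Agent.W277.UD

open Polynomial Pool.Agent.W277.UB Pool.Agent.W277.UC Finset PlaceData

universe w

lemma numericS (n e d : ℕ) (hn : 1 ≤ n) (h : n * (e + 2) ^ 4 ≤ d) :
    2 ≤ d ∧ e + 2 ≤ d ∧
    (d + tri (e + 1)) * ((e + 2) * ((e + 2) * (tri (e + 1) + 1 + (e + 1)) +
      2 * n * tri (e + 2))) < ((d : ℤ) - (tri (e + 1) + 1)) * (d - (e + 1)) := by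
  have h' : (n : ℤ) * ((e : ℤ) + 2) ^ 4 ≤ d := by exact_mod_cast h
  have he : (0 : ℤ) ≤ e := Int.natCast_nonneg e
  have hn' : (1 : ℤ) ≤ n := by exact_mod_cast hn
  have t1 := two_tri (e + 1)
  have t2 := two_tri (e + 2)
  push_cast at t1 t2
  have h4 : ((e : ℤ) + 2) ^ 4 ≤ d := by
    have h5 : (1 : ℤ) * ((e : ℤ) + 2) ^ 4 ≤ n * ((e : ℤ) + 2) ^ 4 :=
      mul_le_mul_of_nonneg_right hn' (by positivity)
    linarith
  have he2 : (0 : ℤ) ≤ (e : ℤ) ^ 2 := by positivity
  have he3 : (0 : ℤ) ≤ (e : ℤ) ^ 3 := by positivity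
  have he4 : (0 : ℤ) ≤ (e : ℤ) ^ 4 := by positivity
  have hexp : ((e : ℤ) + 2) ^ 4 = e ^ 4 + 8 * e ^ 3 + 24 * e ^ 2 + 32 * e + 16 := by ring
  refine ⟨?_, ?_, ?_⟩
  · zify
    linarith
  · zify
    linarith
  · obtain ⟨D, hD⟩ : ∃ D : ℤ, D = d - n * (e + 2) ^ 4 := ⟨_, rfl⟩
    obtain ⟨m, hm⟩ : ∃ m : ℤ, m = n - 1 := ⟨_, rfl⟩
    have hD0 : 0 ≤ D := by linarith
    have hm0 : 0 ≤ m := by linarith
    have hnm : (n : ℤ) = m + 1 := by linarith
    have hd : (d : ℤ) = D + (m + 1) * (e + 2) ^ 4 := by rw [hD, hnm]; ring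
    have h1 : 0 < 4 * (((d : ℤ) - (tri (e + 1) + 1)) * (d - (e + 1)) -
        (d + tri (e + 1)) * ((e + 2) * ((e + 2) * (tri (e + 1) + 1 + (e + 1)) +
          2 * n * tri (e + 2)))) := by
      have h2 : 4 * (((d : ℤ) - (tri (e + 1) + 1)) * (d - (e + 1)) -
          (d + tri (e + 1)) * ((e + 2) * ((e + 2) * (tri (e + 1) + 1 + (e + 1)) +
            2 * n * tri (e + 2)))) =
          2 * ((2 * (d : ℤ) - (2 * tri (e + 1) + 2)) * (d - (e + 1))) -
          (2 * d + 2 * tri (e + 1)) * ((e + 2) * ((e + 2) * (2 * tri (e + 1) + 2 + 2 * (e + 1)) +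
            2 * n * (2 * tri (e + 2)))) := by
        ring
      rw [h2, t1, t2, hd, hnm]
      have h3 : 2 * ((2 * (D + (m + 1) * ((e : ℤ) + 2) ^ 4) - ((↑e + 1) * (↑e + 1 - 1) + 2)) *
          (D + (m + 1) * (↑e + 2) ^ 4 - (↑e + 1))) -
          (2 * (D + (m + 1) * (↑e + 2) ^ 4) + (↑e + 1) * (↑e + 1 - 1)) *
            ((↑e + 2) * ((↑e + 2) * ((↑e + 1) * (↑e + 1 - 1) + 2 + 2 * (↑e + 1)) +
              2 * (m + 1) * ((↑e + 2) * (↑e + 2 - 1)))) =
          4 * D ^ 2 + D * m * (8 * e ^ 4 + 60 * e ^ 3 + 172 * e ^ 2 + 224 * e + 112) +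
            D * (6 * e ^ 4 + 46 * e ^ 3 + 130 * e ^ 2 + 162 * e + 72) +
            m ^ 2 * (4 * e ^ 8 + 60 * e ^ 7 + 396 * e ^ 6 + 1504 * e ^ 5 + 3600 * e ^ 4 +
              5568 * e ^ 3 + 5440 * e ^ 2 + 3072 * e + 768) +
            m * (6 * e ^ 8 + 90 * e ^ 7 + 590 * e ^ 6 + 2208 * e ^ 5 + 5164 * e ^ 4 +
              7734 * e ^ 3 + 7240 * e ^ 2 + 3864 * e + 896) +
            (2 * e ^ 8 + 30 * e ^ 7 + 193 * e ^ 6 + 696 * e ^ 5 + 1537 * e ^ 4 + 2120 * e ^ 3 +
              1760 * e ^ 2 + 782 * e + 132) := by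
        ring
      rw [h3]
      positivity
    linarith

section Card

variable {k K : Type*} [Field k] [Field K] [Algebra k K] {Q : PlaceData k K}

lemma Hn_ge {d : ℕ} {A : K} {S : Finset Q.Pl} (hA : Unit' Q S A) (q : Q.Pl → ℤ) :
    ((d : ℤ) - 1) * Hq Q S q ≤ Hn Q d A S q := by
  have h3 : ((d : ℤ) - 1) * Hq Q S q - ∑ v ∈ S, Q.wt v * Q.ord v A ≤ Hn Q d A S q := by
    unfold Hq Hn
    rw [Finset.mul_sum, ← Finset.sum_sub_distrib]
    refine Finset.sum_le_sum fun v _ => ?_
    have h4 := mul_le_mul_of_nonneg_left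
      (le_max_right 0 (((d : ℤ) - 1) * q v - Q.ord v A)) (Q.wt_nonneg v)
    linarith
  rw [sum_unit hA] at h3
  linarith

/-- The bound when the loss is controlled by the size. -/
theorem card_polyS [CharZero k] {n e d : ℕ} (hn : 1 ≤ n) {A : K} {f : K[X]} {P : Finset K}
    (hS : StabA e d A f P) (hed : n * (e + 2) ^ 4 ≤ d) [DecidableEq K]
    (hP0 : (P.erase 0).Nonempty)
    (hΛ : Q.lossT ≤ 2 * n * Hq Q (supp Q (insert A P)) (qm Q (P.erase 0) hP0))
    (hf : ¬ ∃ y : K, y ≠ 0 ∧ ∃ g : k[X], g.map (algebraMap k K) = scal y f) :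
    P.card ≤ d * d + 1 := by
  obtain ⟨n1, n2, n3⟩ := numericS n e d hn hed
  have hsm := small_A hS n1 (by omega) hP0 Q hf
  have hAS : Unit' Q (supp Q (insert A P)) A := unit_supp (Finset.mem_insert_self A P) hS.hA
  have hge := Hn_ge (d := d) hAS (qm Q (P.erase 0) hP0)
  set H := Hn Q d A (supp Q (insert A P)) (qm Q (P.erase 0) hP0) with hHd
  rcases le_or_gt H 0 with hH | hH
  · rw [Int.toNat_of_nonpos hH] at hsm
    simp only [mul_zero, zero_add, pow_one] at hsm
    have : d ≤ d * d := Nat.le_mul_of_pos_left d (by omega)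
    omega
  · refine poly_largeC hS n2 hP0 (2 * n * tri (e + 2)) n3 hH ?_
    have hd1 : (0 : ℤ) ≤ (d : ℤ) - 1 := by
      have : (2 : ℤ) ≤ d := by exact_mod_cast n1
      linarith
    have h1 := mul_le_mul_of_nonneg_left hΛ (mul_nonneg hd1 (tri_nonneg (e + 2)))
    have h2 := mul_le_mul_of_nonneg_left hge (show (0 : ℤ) ≤ 2 * n * tri (e + 2) from
      mul_nonneg (by positivity) (tri_nonneg _))
    linarith

end Card

section Core

variable {L : Type*} [Field L]

/-- Scaling a stable set. -/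
lemma stab_scal [DecidableEq L] {e d : ℕ} {A : L} {f : L[X]} {P : Finset L}
    (hS : StabA e d A f P) (hd : 1 ≤ d) {z0 : L} (hz0 : z0 ≠ 0) :
    StabA e d (A * z0 ^ (d - 1)) (scal z0 f) (P.image fun z => z / z0) := by
  refine ⟨mul_ne_zero hS.hA (pow_ne_zero _ hz0), ?_, ?_⟩
  · have h1 : scal z0 f - C (A * z0 ^ (d - 1)) * X ^ d =
        C z0⁻¹ * ((f - C A * X ^ d).comp (C z0 * X)) := by
      unfold scal
      rw [sub_comp, mul_sub, mul_comp, C_comp, X_pow_comp, mul_pow]
      congr 1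
      have h2 : z0 ^ d = z0 ^ (d - 1) * z0 := by
        rw [← pow_succ]
        congr 1
        omega
      rw [← C_pow, h2, ← mul_assoc, ← mul_assoc, ← C_mul, ← C_mul]
      congr 2
      field_simp
    rw [h1, natDegree_C_mul (inv_ne_zero hz0)]
    refine natDegree_comp_le.trans ?_
    rw [natDegree_C_mul_X z0 hz0, mul_one]
    exact hS.hf
  · intro x hx
    obtain ⟨z, hz, rfl⟩ := Finset.mem_image.mp hx
    rw [eval_scal, mul_div_cancel₀ z hz0]
    exact Finset.mem_image.mpr ⟨f.eval z, hS.hP z hz, by field_simp⟩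

lemma scal_scal (y z : L) (f : L[X]) : scal y (scal z f) = scal (z * y) f := by
  unfold scal
  rw [mul_comp, C_comp, comp_assoc, ← mul_assoc, ← C_mul, mul_inv, mul_comm y⁻¹]
  congr 2
  simp only [mul_comp, C_comp, X_comp, C_mul]
  ring

lemma scal_map {K : Type*} [Field K] (φ : K →+* L) (y : K) (g : K[X]) :
    (scal y g).map φ = scal (φ y) (g.map φ) := by
  unfold scal
  rw [Polynomial.map_mul, map_comp, Polynomial.map_mul, map_C, map_C, map_X, map_inv₀]

variable {k : Type*} [Field k] [CharZero k] [Algebra k L]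
  [Algebra (RatFunc k) L] [IsScalarTower k (RatFunc k) L] [FiniteDimensional (RatFunc k) L]

/-- The bound for stable sets over an extension of `k(t)` of bounded degree. -/
theorem strong_core (halg : ∀ x : L, IsAlgebraic k x → ∃ c : k, algebraMap k L c = x)
    {n e d : ℕ} (hn : Module.finrank (RatFunc k) L ≤ n) (hed : n * (e + 2) ^ 4 ≤ d) {A : L}
    {f : L[X]} {P : Finset L} (hS : StabA e d A f P)
    (hf : ¬ ∃ y : L, y ≠ 0 ∧ ∃ g : k[X], g.map (algebraMap k L) = scal y f) :
    P.card ≤ d * d + 1 := by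
  classical
  have : CharZero (RatFunc k) := charZero_of_injective_algebraMap
    (algebraMap k (RatFunc k)).injective
  have hn1 : 1 ≤ n := le_trans Module.finrank_pos hn
  obtain ⟨n1, n2, -⟩ := numericS n e d hn1 hed
  by_contra hcon
  push Not at hcon
  obtain ⟨z0, hz0P, hz0⟩ : ∃ z ∈ P, z ≠ 0 := by
    by_contra h
    push Not at h
    have h1 : P ⊆ {0} := fun z hz => Finset.mem_singleton.mpr (h z hz)
    have h2 := Finset.card_le_card h1
    rw [Finset.card_singleton] at h2
    omega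
  set f0 := scal z0 f with hf0
  set P0 := P.image fun z => z / z0 with hP0
  have hS0 : StabA e d (A * z0 ^ (d - 1)) f0 P0 := stab_scal hS (by omega) hz0
  have hcard0 : P0.card = P.card := by
    rw [hP0]
    apply Finset.card_image_of_injective
    intro x y hxy
    have h2 : x / z0 = y / z0 := hxy
    rwa [div_left_inj' hz0] at h2
  obtain ⟨hfd0, hfl0, hf00⟩ := lead_f hS0.hA hS0.hf (show e < d by omega)
  have hdc : d < P0.card := by
    have : d ≤ d * d := Nat.le_mul_of_pos_left d (by omega)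
    omega
  set L0 := IntermediateField.adjoin (RatFunc k) (P0 : Set L) with hL0
  have hPL : ∀ z ∈ P0, z ∈ L0 := fun z hz => IntermediateField.subset_adjoin _ _ hz
  obtain ⟨g0, hg0⟩ := const_poly (k := L0) (K := L) (f := f0) (d := d) hfd0.le (P := P0)
    (fun z hz => ⟨⟨z, hPL z hz⟩, rfl⟩) (fun z hz => ⟨⟨_, hPL _ (hS0.hP z hz)⟩, rfl⟩) hdc
  set P1 : Finset L0 := P0.subtype (fun x => x ∈ L0) with hP1
  have hcard1 : P1.card = P.card := by
    rw [hP1, Finset.card_subtype, Finset.filter_true_of_mem hPL, hcard0]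
  have hmem1 : ∀ z : L0, z ∈ P1 ↔ (z : L) ∈ P0 := fun z => Finset.mem_subtype
  have hA1 : algebraMap L0 L (g0.coeff d) = A * z0 ^ (d - 1) := by
    rw [← coeff_map, hg0, ← hfl0]
    unfold leadingCoeff
    rw [hfd0]
  have hS1 : StabA e d (g0.coeff d) g0 P1 := by
    refine ⟨?_, ?_, ?_⟩
    · intro h
      rw [h, map_zero] at hA1
      exact hS0.hA hA1.symm
    · have h1 : (g0 - C (g0.coeff d) * X ^ d).map (algebraMap L0 L) =
          f0 - C (A * z0 ^ (d - 1)) * X ^ d := by
        rw [Polynomial.map_sub, Polynomial.map_mul, Polynomial.map_pow, map_X, map_C, hg0, hA1]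
      rw [← natDegree_map (algebraMap L0 L), h1]
      exact hS0.hf
    · intro z hz
      rw [hmem1] at hz ⊢
      have h1 : ((g0.eval z : L0) : L) = f0.eval (z : L) := by
        rw [← hg0]
        exact (eval_map_apply (algebraMap L0 L) z).symm
      rw [h1]
      exact hS0.hP _ hz
  by_cases hcst : ∀ z ∈ P0, ∃ c : k, algebraMap k L c = z
  · obtain ⟨g, hg⟩ := const_poly (k := k) (f := f0) (d := d) hfd0.le (P := P0) hcst
      (fun z hz => hcst _ (hS0.hP z hz)) hdc
    exact hf ⟨z0, hz0, g, hg⟩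
  · push Not at hcst
    obtain ⟨z, hz, hzc⟩ := hcst
    have hst : IsScalarTower k L0 L := IsScalarTower.of_algebraMap_eq fun c => rfl
    have halg0 : ∀ x : L0, IsAlgebraic k x → ∃ c : k, algebraMap k L0 c = x := by
      intro x hx
      obtain ⟨c, hc⟩ := halg (x : L) (hx.algebraMap (A := L))
      exact ⟨c, Subtype.ext hc⟩
    have hgenP : IntermediateField.adjoin (RatFunc k) (P1 : Set L0) = ⊤ := by
      apply IntermediateField.lift_injective
      rw [IntermediateField.lift_adjoin, IntermediateField.lift_top]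
      have h1 : L0.val '' (P1 : Set L0) = (P0 : Set L) := by
        ext x
        constructor
        · rintro ⟨y, hy, rfl⟩
          exact (hmem1 y).mp hy
        · intro hx
          exact ⟨⟨x, hPL x hx⟩, (hmem1 _).mpr hx, rfl⟩
      have h2 : (Subtype.val : L0 → L) '' (P1 : Set L0) = (P0 : Set L) := h1
      rw [h2]
    obtain ⟨u, huP, hugen, huc⟩ := exists_gen (k := k) (F := RatFunc k) (E := L0) (P1 : Set L0)
      hgenP ⟨z, hPL z hz⟩ ((hmem1 _).mpr hz) (by
        intro c hc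
        exact hzc c (congrArg Subtype.val hc).symm)
    obtain ⟨Q, hQ⟩ := exists_placeData_small k L0 halg0 u hugen huc
    have h1P : (1 : L0) ∈ P1 := by
      rw [hmem1, hP0, Finset.mem_image]
      exact ⟨z0, hz0P, div_self hz0⟩
    have hP10 : (P1.erase 0).Nonempty := ⟨1, Finset.mem_erase.mpr ⟨one_ne_zero, h1P⟩⟩
    set S := supp Q (insert (g0.coeff d) P1) with hSd
    set q := qm Q (P1.erase 0) hP10 with hq
    have hZS : ∀ z ∈ P1.erase 0, Unit' Q S z := fun z hz =>
      unit_supp (Finset.mem_insert_of_mem (Finset.mem_of_mem_erase hz)) (Finset.ne_of_mem_erase hz)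
    have hq0 : ∀ v, 0 ≤ q v := by
      intro v
      have h2 := le_qm hP10 v (Finset.mem_erase.mpr ⟨one_ne_zero, h1P⟩)
      rw [ord_one] at h2
      linarith
    have hGu' : ∀ (v : Q.Pl) (x : L0), x ∈ Submodule.span k (P1 : Set L0) →
        Q.G v (- q v) x := by
      intro v x hx
      induction hx using Submodule.span_induction with
      | mem x hx =>
        intro hx0
        exact le_qm hP10 v (Finset.mem_erase.mpr ⟨hx0, hx⟩)
      | zero => exact G_zero
      | add x y _ _ hx hy => exact G_add hx hy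
      | smul c x _ hx =>
        rw [Algebra.smul_def]
        simpa using G_mul (G_alg (Q := Q) (v := v) c) hx
    have hGu : ∀ v, Q.G v (- q v) u := fun v => hGu' v u huP
    have hu0 : u ≠ 0 := by
      have := huc 0
      rwa [map_zero] at this
    have hpole : ∀ v, Q.pole v u ≤ q v := by
      intro v
      rw [pole_of_ne hu0]
      apply max_le (hq0 v)
      have := hGu v hu0
      linarith
    have hΛ := hQ S (by
      intro v hv
      have h2 := hpole v
      rw [hq, qm_zero hP10 hZS v hv] at h2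
      exact le_antisymm h2 (pole_nonneg v u))
    have hsum : ∑ v ∈ S, Q.wt v * Q.pole v u ≤ Hq Q S q := by
      unfold Hq
      exact Finset.sum_le_sum fun v _ => mul_le_mul_of_nonneg_left (hpole v) (Q.wt_nonneg v)
    have hsum0 : 0 ≤ ∑ v ∈ S, Q.wt v * Q.pole v u :=
      Finset.sum_nonneg fun v _ => mul_nonneg (Q.wt_nonneg v) (pole_nonneg v u)
    have hn0 : Module.finrank (RatFunc k) L0 ≤ n :=
      le_trans (Submodule.finrank_le L0.toSubalgebra.toSubmodule) hn
    have hn0' : (Module.finrank (RatFunc k) L0 : ℤ) ≤ n := by exact_mod_cast hn0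
    have hΛ' : Q.lossT ≤ 2 * n * Hq Q S q := by
      refine hΛ.trans ?_
      apply mul_le_mul _ hsum hsum0 (by positivity)
      linarith
    have hres := card_polyS hn1 hS1 hed hP10 hΛ' (by
      rintro ⟨y, hy, g, hg⟩
      refine hf ⟨z0 * y, mul_ne_zero hz0 (by simpa using hy), g, ?_⟩
      rw [← scal_scal, ← hf0, ← hg0]
      have h2 := scal_map (algebraMap L0 L) y g0
      rw [← hg, Polynomial.map_map] at h2
      exact h2)
    omega

end Core

end Pool.Agent.W277.UD
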