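import Mathlib
import Pool.Agent.W277.UD.StrongP

/-!
# Final theorem for polynomials with a gap over extensions of bounded degree
-/

namespace Pool.Agent.W277.UD

open Polynomial Pool.Agent.W277.UB Pool.Agent.W277.UC Finset PlaceData IntermediateField

/-- A function field as a finite extension of a rational function field over its constants. -/
theorem exists_ratAlg (k L : Type*) [Field k] [Field L] [Algebra k L] (t : L)
    (ht : Transcendental k t) [FiniteDimensional (IntermediateField.adjoin k {t}) L] :
    ∃ _ : Algebra (RatFunc (algebraicClosure k L)) L,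
      IsScalarTower (algebraicClosure k L) (RatFunc (algebraicClosure k L)) L ∧
      FiniteDimensional (RatFunc (algebraicClosure k L)) L ∧
      Module.finrank (RatFunc (algebraicClosure k L)) L ≤
        Module.finrank (IntermediateField.adjoin k {t}) L := by
  classical
  set E := algebraicClosure k L with hE
  have ht' : Transcendental E t := ht.algebraicClosure
  have hinj : Function.Injective (aeval t : E[X] →ₐ[E] L) := by
    rw [← transcendental_iff_injective]
    exact ht'
  let φ : RatFunc E →+* L := IsFractionRing.lift (g := (aeval t : E[X] →ₐ[E] L).toRingHom) hinj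
  have hφ : ∀ p : E[X], φ (algebraMap E[X] (RatFunc E) p) = aeval t p := fun p =>
    IsFractionRing.lift_algebraMap _ p
  let inst : Algebra (RatFunc E) L := φ.toAlgebra
  have hφ' : ∀ y, algebraMap (RatFunc E) L y = φ y := fun _ => rfl
  have hrange : ∀ y ∈ IntermediateField.adjoin k {t}, ∃ r : RatFunc E, φ r = y := by
    have h1 : IntermediateField.adjoin k {t} ≤
        ({ carrier := Set.range φ
           mul_mem' := by
            rintro _ _ ⟨a, rfl⟩ ⟨b, rfl⟩
            exact ⟨a * b, map_mul _ _ _⟩
           add_mem' := by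
            rintro _ _ ⟨a, rfl⟩ ⟨b, rfl⟩
            exact ⟨a + b, map_add _ _ _⟩
           algebraMap_mem' := by
            intro c
            refine ⟨algebraMap E[X] (RatFunc E) (C (algebraMap k E c)), ?_⟩
            rw [hφ, aeval_C]
            rfl
           inv_mem' := by
            rintro _ ⟨a, rfl⟩
            exact ⟨a⁻¹, map_inv₀ _ _⟩ } : IntermediateField k L) := by
      rw [IntermediateField.adjoin_le_iff]
      rintro y hy
      rw [Set.mem_singleton_iff] at hy
      subst hy
      exact ⟨algebraMap E[X] (RatFunc E) X, by rw [hφ, aeval_X]⟩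
    intro y hy
    exact h1 hy
  set n := Module.finrank (IntermediateField.adjoin k {t}) L with hn
  let b : Module.Basis (Fin n) (IntermediateField.adjoin k {t}) L :=
    Module.finBasis (IntermediateField.adjoin k {t}) L
  have hspan : Submodule.span (RatFunc E) (Set.range b) = ⊤ := by
    rw [eq_top_iff]
    intro x _
    rw [← b.sum_repr x]
    refine Submodule.sum_mem _ fun i _ => ?_
    obtain ⟨r, hr⟩ := hrange _ (b.repr x i).2
    have h1 : (b.repr x i) • b i = r • b i := by
      rw [Algebra.smul_def, Algebra.smul_def, hφ', hr]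
      rfl
    rw [h1]
    exact Submodule.smul_mem _ _ (Submodule.subset_span ⟨i, rfl⟩)
  refine ⟨inferInstance, ?_, ?_, ?_⟩
  · apply IsScalarTower.of_algebraMap_eq
    intro c
    rw [hφ']
    have h1 : algebraMap E (RatFunc E) c = algebraMap E[X] (RatFunc E) (C c) := by
      rw [RatFunc.algebraMap_C]
      rfl
    rw [h1, hφ, aeval_C]
  · refine ⟨⟨Finset.univ.image b, ?_⟩⟩
    rw [← hspan]
    congr 1
    simp
  · have h1 := finrank_range_le_card (R := RatFunc E) b
    rw [Fintype.card_fin] at h1
    unfold Set.finrank at h1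
    rwa [hspan, finrank_top] at h1

/-- Uniform boundedness over all extensions of `k(t)` of degree at most `n`. -/
theorem poly_strong (k L : Type*) [Field k] [CharZero k] [Field L] [Algebra k L] (t : L)
    (ht : Transcendental k t) [FiniteDimensional (IntermediateField.adjoin k {t}) L]
    (n e d : ℕ) (hn : Module.finrank (IntermediateField.adjoin k {t}) L ≤ n)
    (hd : n * (e + 2) ^ 4 ≤ d) (f : L[X]) (A b : L) (hA : A ≠ 0)
    (hf : (f.comp (X + C b) - C A * X ^ d).natDegree ≤ e)
    (hiso : ¬ ∃ y b : L, y ≠ 0 ∧ ∀ m, IsAlgebraic k ((aff y b f).coeff m)) :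
    (PrePer f).encard ≤ ((d ^ 2 + 1 : ℕ) : ℕ∞) := by
  classical
  obtain ⟨inst, hst, hfin, hle⟩ := exists_ratAlg k L t ht
  have : CharZero (algebraicClosure k L) := charZero_of_injective_algebraMap
    (algebraMap k (algebraicClosure k L)).injective
  have halg : ∀ x : L, IsAlgebraic (algebraicClosure k L) x →
      ∃ c : algebraicClosure k L, algebraMap (algebraicClosure k L) L c = x := by
    intro y hy
    have h1 : IsAlgebraic k y := hy.restrictScalars k
    exact ⟨⟨y, h1.isIntegral⟩, rfl⟩
  set f1 : L[X] := f.comp (X + C b) - C b with hf1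
  have hle' : (PrePer f).encard ≤ (PrePer f1).encard := by
    refine (Set.encard_le_encard (prePer_aff f b)).trans ?_
    exact Set.encard_image_le _ _
  refine hle'.trans ?_
  have hf1' : (f1 - C A * X ^ d).natDegree ≤ e := by
    have h1 : f1 - C A * X ^ d = (f.comp (X + C b) - C A * X ^ d) - C b := by
      rw [hf1]
      ring
    rw [h1, natDegree_sub_C]
    exact hf
  have hiso1 : ¬ ∃ y : L, y ≠ 0 ∧ ∃ g : (algebraicClosure k L)[X],
      g.map (algebraMap (algebraicClosure k L) L) = scal y f1 := by
    rintro ⟨y, hy, g, hg⟩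
    refine hiso ⟨y, b, hy, fun m => ?_⟩
    have h1 : aff y b f = scal y f1 := by
      rw [scal, aff, hf1, sub_comp, comp_assoc, C_comp]
      simp
    rw [h1, ← hg, coeff_map]
    exact mem_algebraicClosure_iff.mp (g.coeff m).2
  by_contra hcon
  push Not at hcon
  obtain ⟨T, hTs, hT⟩ := Set.exists_subset_encard_eq (Order.add_one_le_of_lt hcon)
  have hTf : T.Finite := by
    apply Set.finite_of_encard_eq_coe (k := d ^ 2 + 1 + 1)
    rw [hT]
    norm_cast
  lift T to Finset L using hTf
  obtain ⟨P, hTP, hP⟩ := exists_stab f1 T fun z hz => hTs (by simpa using hz)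
  have h1 := strong_core (k := algebraicClosure k L) halg (hle.trans hn) hd ⟨hA, hf1', hP⟩ hiso1
  have h2 := Finset.card_le_card hTP
  rw [Set.encard_coe_eq_coe_finsetCard] at hT
  have h3 : T.card = d ^ 2 + 1 + 1 := by
    exact_mod_cast hT
  rw [sq] at h3
  omega

end Pool.Agent.W277.UD
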